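import Mathlib

set_option autoImplicit false
open scoped ENNReal NNReal Topology
open Filter

namespace Pool.Agent.MPeb6598

section Gen

variable {α : Type*} {E : Type*} [NormedAddCommGroup E]

lemma memlp_of_sum_le {y : α → E} {C : ℝ} (h : ∀ s : Finset α, ∑ i ∈ s, ‖y i‖ ^ 2 ≤ C) :
    Memℓp y 2 := by
  apply memℓp_gen' (C := C)
  intro s
  simpa using h s

lemma hasSum_normsq (f : lp (fun _ : α => E) 2) : HasSum (fun i => ‖f i‖ ^ 2) (‖f‖ ^ 2) := by
  have := lp.hasSum_norm (p := 2) (by norm_num) f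
  simpa using this

lemma normsq_eq_tsum (f : lp (fun _ : α => E) 2) : ‖f‖ ^ 2 = ∑' i, ‖f i‖ ^ 2 :=
  (hasSum_normsq f).tsum_eq.symm

lemma sum_normsq_le (f : lp (fun _ : α => E) 2) (s : Finset α) :
    ∑ i ∈ s, ‖f i‖ ^ 2 ≤ ‖f‖ ^ 2 :=
  sum_le_hasSum s (fun i _ => by positivity) (hasSum_normsq f)

lemma normsq_le_of_sum_le (f : lp (fun _ : α => E) 2) {C : ℝ}
    (h : ∀ s : Finset α, ∑ i ∈ s, ‖f i‖ ^ 2 ≤ C) : ‖f‖ ^ 2 ≤ C :=
  hasSum_le_of_sum_le (hasSum_normsq f) h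

lemma sum_le_of_range {y : ℕ → E} {C : ℝ} (h : ∀ N : ℕ, ∑ i ∈ Finset.range N, ‖y i‖ ^ 2 ≤ C)
    (s : Finset ℕ) : ∑ i ∈ s, ‖y i‖ ^ 2 ≤ C := by
  refine le_trans ?_ (h (s.sup id + 1))
  apply Finset.sum_le_sum_of_subset_of_nonneg
  · intro i hi
    have : i ≤ s.sup id := Finset.le_sup (f := id) hi
    simp only [Finset.mem_range]
    omega
  · intro i _ _
    positivity

end Gen

section Riesz

variable {K H : Type*} [NormedAddCommGroup K] [InnerProductSpace ℂ K] [CompleteSpace K]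
  [NormedAddCommGroup H] [InnerProductSpace ℂ H] [CompleteSpace H]

open ContinuousLinearMap in
/-- A Douglas-type range lemma. -/
lemma mem_range_of_bound (O : K →L[ℂ] H) (h : H) (C : ℝ)
    (hC : ∀ y : H, ‖(inner ℂ h y : ℂ)‖ ≤ C * ‖(adjoint O) y‖) : ∃ F : K, O F = h := by
  classical
  -- the functional on the range of the adjoint
  set S : Submodule ℂ K := LinearMap.range (adjoint O).toLinearMap with hS
  have hdef : ∀ y₁ y₂ : H, (adjoint O) y₁ = (adjoint O) y₂ →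
      (inner ℂ h y₁ : ℂ) = inner ℂ h y₂ := by
    intro y₁ y₂ h12
    have h0 : ‖(inner ℂ h (y₁ - y₂) : ℂ)‖ ≤ 0 := by
      have := hC (y₁ - y₂)
      rw [map_sub, h12, sub_self, norm_zero, mul_zero] at this
      exact this
    have h1 : (inner ℂ h (y₁ - y₂) : ℂ) = 0 := norm_le_zero_iff.1 h0
    rw [inner_sub_right] at h1
    exact sub_eq_zero.1 h1
  have hex : ∀ s : S, ∃ y : H, (adjoint O) y = (s : K) := by
    intro s
    obtain ⟨y, hy⟩ := s.2
    exact ⟨y, hy⟩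
  choose c hc using hex
  let ℓ₀ : S →ₗ[ℂ] ℂ :=
    { toFun := fun s => inner ℂ h (c s)
      map_add' := by
        intro s t
        rw [← inner_add_right]
        apply hdef
        rw [map_add, hc, hc, hc]; rfl
      map_smul' := by
        intro a s
        simp only [RingHom.id_apply]
        rw [smul_eq_mul, ← inner_smul_right]
        apply hdef
        rw [map_smul, hc, hc]; rfl }
  have hb : ∀ s : S, ‖ℓ₀ s‖ ≤ C * ‖s‖ := by
    intro s
    have := hC (c s)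
    rw [hc] at this
    exact this
  let ℓ₁ : S →L[ℂ] ℂ := ℓ₀.mkContinuous C hb
  obtain ⟨ℓ, hℓ, -⟩ := exists_extension_norm_eq S ℓ₁
  let F := (InnerProductSpace.toDual ℂ K).symm ℓ
  have hF : ∀ k : K, (inner ℂ F k : ℂ) = ℓ k := by
    intro k
    exact InnerProductSpace.toDual_symm_apply
  refine ⟨F, ?_⟩
  apply ext_inner_right ℂ
  intro y
  rw [← adjoint_inner_right, hF]
  have hmem : (adjoint O) y ∈ S := ⟨y, rfl⟩
  have := hℓ ⟨(adjoint O) y, hmem⟩
  rw [this]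
  change inner ℂ h (c ⟨(adjoint O) y, hmem⟩) = _
  apply hdef
  rw [hc]

end Riesz

end Pool.Agent.MPeb6598
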