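import Mathlib
import Pool.Agent.Lib.MP_eb6598_an.Basic

set_option autoImplicit false
open scoped ENNReal NNReal Topology
open Filter ContinuousLinearMap

namespace Pool.Agent.MPeb6598

section Sys

variable {E K : Type} [NormedAddCommGroup E] [InnerProductSpace ℂ E] [CompleteSpace E]
  [NormedAddCommGroup K] [InnerProductSpace ℂ K] [CompleteSpace K]

/-- State of the colligation with initial state `F` and input `f`. -/
noncomputable def st (U : K →L[ℂ] K) (J : E →L[ℂ] K) (D : E →L[ℂ] E) (F : K) (f : ℕ → E) :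
    ℕ → K
  | 0 => F
  | (n + 1) => U (st U J D F f n - (2 : ℂ) • J (D (adjoint J (st U J D F f n) + f n)))

/-- Output of the colligation. -/
noncomputable def outp (U : K →L[ℂ] K) (J : E →L[ℂ] K) (D : E →L[ℂ] E) (F : K) (f : ℕ → E)
    (n : ℕ) : E :=
  (2 : ℂ) • D (adjoint J (st U J D F f n) + f n) - f n

variable (U : K →L[ℂ] K) (J : E →L[ℂ] K) (D : E →L[ℂ] E)

lemma energy_step (hU : ∀ x, ‖U x‖ = ‖x‖)
    (hD : ∀ e, D e + adjoint J (J (D e)) = e) (x : K) (f : E) :
    ‖U (x - (2 : ℂ) • J (D (adjoint J x + f)))‖ ^ 2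
      + ‖(2 : ℂ) • D (adjoint J x + f) - f‖ ^ 2 = ‖x‖ ^ 2 + ‖f‖ ^ 2 := by
  set w := D (adjoint J x + f) with hw
  have hw' : w + adjoint J (J w) = adjoint J x + f := hD _
  rw [hU]
  have h1 : ‖x - (2 : ℂ) • J w‖ ^ 2 = ‖x‖ ^ 2 - 4 * (inner ℂ w (adjoint J x) : ℂ).re
      + 4 * ‖J w‖ ^ 2 := by
    have := @norm_sub_sq ℂ K _ _ _ x ((2 : ℂ) • J w)
    rw [this, inner_smul_right, norm_smul]
    have h2 : (inner ℂ x (J w) : ℂ) = inner ℂ (adjoint J x) w := by
      rw [adjoint_inner_left]
    rw [h2, ← inner_conj_symm]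
    simp only [RCLike.re_to_complex, Complex.mul_re, Complex.re_ofNat, Complex.conj_re,
      Complex.im_ofNat, zero_mul, sub_zero, Complex.norm_ofNat]
    ring
  have h3 : ‖(2 : ℂ) • w - f‖ ^ 2 = 4 * ‖w‖ ^ 2 - 4 * (inner ℂ w f : ℂ).re + ‖f‖ ^ 2 := by
    have := @norm_sub_sq ℂ E _ _ _ ((2 : ℂ) • w) f
    rw [this, inner_smul_left, norm_smul]
    simp only [RCLike.re_to_complex, Complex.mul_re, Complex.re_ofNat, Complex.conj_re,
      Complex.conj_im, Complex.im_ofNat, neg_zero, zero_mul, sub_zero, Complex.norm_ofNat]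
    ring
  have h4 : (inner ℂ w (adjoint J x) : ℂ).re + (inner ℂ w f : ℂ).re = ‖w‖ ^ 2 + ‖J w‖ ^ 2 := by
    have h5 : (inner ℂ w (adjoint J x + f) : ℂ) = inner ℂ w (w + adjoint J (J w)) := by
      rw [hw']
    rw [inner_add_right, inner_add_right, adjoint_inner_right J w (J w)] at h5
    have h6 := congrArg Complex.re h5
    rw [Complex.add_re, Complex.add_re] at h6
    rw [h6]
    have h7 : (inner ℂ w w : ℂ).re = ‖w‖ ^ 2 := by
      rw [inner_self_eq_norm_sq_to_K]; norm_cast
    have h8 : (inner ℂ (J w) (J w) : ℂ).re = ‖J w‖ ^ 2 := by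
      rw [inner_self_eq_norm_sq_to_K]; norm_cast
    rw [h7, h8]
  rw [h1, h3]
  linarith

lemma energy_sum (hU : ∀ x, ‖U x‖ = ‖x‖)
    (hD : ∀ e, D e + adjoint J (J (D e)) = e) (F : K) (f : ℕ → E) (N : ℕ) :
    ∑ n ∈ Finset.range N, ‖outp U J D F f n‖ ^ 2 + ‖st U J D F f N‖ ^ 2
      = ‖F‖ ^ 2 + ∑ n ∈ Finset.range N, ‖f n‖ ^ 2 := by
  induction N with
  | zero => simp [st]
  | succ N ih =>
    rw [Finset.sum_range_succ, Finset.sum_range_succ]
    have h := energy_step U J D hU hD (st U J D F f N) (f N)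
    have h1 : ‖st U J D F f (N + 1)‖ ^ 2 + ‖outp U J D F f N‖ ^ 2
        = ‖st U J D F f N‖ ^ 2 + ‖f N‖ ^ 2 := h
    linarith

lemma st_add (F G : K) (f g : ℕ → E) (n : ℕ) :
    st U J D (F + G) (fun k => f k + g k) n = st U J D F f n + st U J D G g n := by
  induction n with
  | zero => rfl
  | succ n ih =>
    simp only [st]
    rw [ih]
    simp only [map_add, map_sub, map_smul, smul_add]
    abel

lemma st_smul (c : ℂ) (F : K) (f : ℕ → E) (n : ℕ) :
    st U J D (c • F) (fun k => c • f k) n = c • st U J D F f n := by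
  induction n with
  | zero => rfl
  | succ n ih =>
    simp only [st]
    rw [ih]
    simp only [map_add, map_sub, map_smul, smul_add, smul_sub]
    simp only [smul_comm c (2 : ℂ)]

lemma outp_add (F G : K) (f g : ℕ → E) (n : ℕ) :
    outp U J D (F + G) (fun k => f k + g k) n = outp U J D F f n + outp U J D G g n := by
  simp only [outp]
  rw [st_add]
  simp only [map_add, smul_add]
  abel

lemma outp_smul (c : ℂ) (F : K) (f : ℕ → E) (n : ℕ) :
    outp U J D (c • F) (fun k => c • f k) n = c • outp U J D F f n := by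
  simp only [outp]
  rw [st_smul]
  simp only [map_add, map_smul, smul_add, smul_sub]
  simp only [smul_comm c (2 : ℂ)]

lemma sum_outp_le (hU : ∀ x, ‖U x‖ = ‖x‖)
    (hD : ∀ e, D e + adjoint J (J (D e)) = e) (F : K) (f : lp (fun _ : ℕ => E) 2)
    (s : Finset ℕ) :
    ∑ n ∈ s, ‖outp U J D F f n‖ ^ 2 ≤ ‖F‖ ^ 2 + ‖f‖ ^ 2 := by
  apply sum_le_of_range
  intro N
  have h := energy_sum U J D hU hD F f N
  have h1 := sum_normsq_le f (Finset.range N)
  have h2 : 0 ≤ ‖st U J D F f N‖ ^ 2 := by positivity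
  linarith

/-- the input-output-state map into ℓ² -/
noncomputable def Psi (hU : ∀ x, ‖U x‖ = ‖x‖)
    (hD : ∀ e, D e + adjoint J (J (D e)) = e) (F : K) (f : lp (fun _ : ℕ => E) 2) :
    lp (fun _ : ℕ => E) 2 :=
  ⟨fun n => outp U J D F f n, memlp_of_sum_le (sum_outp_le U J D hU hD F f)⟩

lemma Psi_apply (hU : ∀ x, ‖U x‖ = ‖x‖)
    (hD : ∀ e, D e + adjoint J (J (D e)) = e) (F : K) (f : lp (fun _ : ℕ => E) 2) (n : ℕ) :
    (Psi U J D hU hD F f) n = outp U J D F f n := rfl

lemma Psi_normsq (hU : ∀ x, ‖U x‖ = ‖x‖)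
    (hD : ∀ e, D e + adjoint J (J (D e)) = e) (F : K) (f : lp (fun _ : ℕ => E) 2) :
    ‖Psi U J D hU hD F f‖ ^ 2 ≤ ‖F‖ ^ 2 + ‖f‖ ^ 2 :=
  normsq_le_of_sum_le _ (sum_outp_le U J D hU hD F f)

/-- The observability operator. -/
noncomputable def obs (hU : ∀ x, ‖U x‖ = ‖x‖)
    (hD : ∀ e, D e + adjoint J (J (D e)) = e) : K →L[ℂ] lp (fun _ : ℕ => E) 2 :=
  LinearMap.mkContinuous
    { toFun := fun F => Psi U J D hU hD F 0
      map_add' := by
        intro F G
        apply lp.ext
        funext n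
        have := outp_add U J D F G (fun _ => 0) (fun _ => 0) n
        simp only [add_zero] at this
        exact this
      map_smul' := by
        intro c F
        apply lp.ext
        funext n
        have := outp_smul U J D c F (fun _ => 0) n
        simp only [smul_zero] at this
        exact this } 1 (by
    intro F
    have h := Psi_normsq U J D hU hD F 0
    rw [norm_zero] at h
    simp only [LinearMap.coe_mk, AddHom.coe_mk, one_mul]
    apply le_of_sq_le_sq _ (norm_nonneg _)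
    linarith)

/-- The input-output operator (multiplication by `B`). -/
noncomputable def io (hU : ∀ x, ‖U x‖ = ‖x‖)
    (hD : ∀ e, D e + adjoint J (J (D e)) = e) :
    lp (fun _ : ℕ => E) 2 →L[ℂ] lp (fun _ : ℕ => E) 2 :=
  LinearMap.mkContinuous
    { toFun := fun f => Psi U J D hU hD 0 f
      map_add' := by
        intro f g
        apply lp.ext
        funext n
        have := outp_add U J D 0 0 f g n
        simp only [add_zero] at this
        exact this
      map_smul' := by
        intro c f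
        apply lp.ext
        funext n
        have := outp_smul U J D c 0 f n
        simp only [smul_zero] at this
        exact this } 1 (by
    intro f
    have h := Psi_normsq U J D hU hD 0 f
    rw [norm_zero] at h
    simp only [LinearMap.coe_mk, AddHom.coe_mk, one_mul]
    apply le_of_sq_le_sq _ (norm_nonneg _)
    linarith)

lemma obs_apply (hU : ∀ x, ‖U x‖ = ‖x‖)
    (hD : ∀ e, D e + adjoint J (J (D e)) = e) (F : K) (n : ℕ) :
    (obs U J D hU hD F) n = outp U J D F (fun _ => 0) n := rfl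

lemma io_apply (hU : ∀ x, ‖U x‖ = ‖x‖)
    (hD : ∀ e, D e + adjoint J (J (D e)) = e) (f : lp (fun _ : ℕ => E) 2) (n : ℕ) :
    (io U J D hU hD f) n = outp U J D 0 f n := rfl

lemma Psi_eq (hU : ∀ x, ‖U x‖ = ‖x‖)
    (hD : ∀ e, D e + adjoint J (J (D e)) = e) (F : K) (f : lp (fun _ : ℕ => E) 2) :
    Psi U J D hU hD F f = obs U J D hU hD F + io U J D hU hD f := by
  apply lp.ext
  funext n
  rw [lp.coeFn_add, Pi.add_apply, obs_apply, io_apply, Psi_apply]
  have := outp_add U J D F 0 (fun _ => 0) f n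
  simp only [add_zero, zero_add] at this
  exact this

end Sys

end Pool.Agent.MPeb6598
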