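import Mathlib
import Pool.Agent.Lib.MP_eb6598_an.Sys

set_option autoImplicit false
open scoped ENNReal NNReal Topology
open Filter ContinuousLinearMap

namespace Pool.Agent.MPeb6598

section Sys

variable {E K : Type} [NormedAddCommGroup E] [InnerProductSpace ℂ E] [CompleteSpace E]
  [NormedAddCommGroup K] [InnerProductSpace ℂ K] [CompleteSpace K]

variable (U : K →L[ℂ] K) (J : E →L[ℂ] K) (D : E →L[ℂ] E)

lemma st_congr (F : K) (f g : ℕ → E) (n : ℕ) (h : ∀ k < n, f k = g k) :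
    st U J D F f n = st U J D F g n := by
  induction n with
  | zero => rfl
  | succ n ih =>
    simp only [st]
    rw [ih (fun k hk => h k (by omega)), h n (by omega)]

lemma outp_congr (F : K) (f g : ℕ → E) (n : ℕ) (h : ∀ k ≤ n, f k = g k) :
    outp U J D F f n = outp U J D F g n := by
  simp only [outp]
  rw [st_congr U J D F f g n (fun k hk => h k (by omega)), h n (by omega)]

lemma back_step (hUs : ∀ x, U (adjoint U x) = x)
    (hD : ∀ e, D e + adjoint J (J (D e)) = e) (X : K) (y : E) :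
    ∃ (x : K) (f : E), U (x - (2 : ℂ) • J (D (adjoint J x + f))) = X ∧
      (2 : ℂ) • D (adjoint J x + f) - f = y := by
  set ξ := adjoint U X with hξ
  set w := D (y - adjoint J ξ) with hw
  have hw1 : w + adjoint J (J w) = y - adjoint J ξ := hD _
  have key : adjoint J (ξ + (2 : ℂ) • J w) + ((2 : ℂ) • w - y) = y - adjoint J ξ := by
    rw [map_add, map_smul]
    have h2 : (2 : ℂ) • (w + adjoint J (J w)) = (2 : ℂ) • (y - adjoint J ξ) := by rw [hw1]
    rw [smul_add, smul_sub] at h2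
    have h3 : (adjoint J) ξ + (2 : ℂ) • (adjoint J) (J w) + ((2 : ℂ) • w - y)
        = (adjoint J) ξ - y + ((2 : ℂ) • w + (2 : ℂ) • (adjoint J) (J w)) := by abel
    rw [h3, h2]
    have e1 : (2 : ℂ) • y = y + y := two_smul ℂ y
    have e2 : (2 : ℂ) • (adjoint J) ξ = (adjoint J) ξ + (adjoint J) ξ := two_smul ℂ _
    rw [e1, e2]
    abel
  refine ⟨ξ + (2 : ℂ) • J w, (2 : ℂ) • w - y, ?_, ?_⟩
  · rw [key, ← hw, add_sub_cancel_right, hξ, hUs]
  · rw [key, ← hw]; abel

lemma control (hUs : ∀ x, U (adjoint U x) = x)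
    (hD : ∀ e, D e + adjoint J (J (D e)) = e) (h : ℕ → E) (N : ℕ) :
    ∀ X : K, ∃ (F : K) (f : ℕ → E), (∀ n, N ≤ n → f n = 0) ∧
      (∀ n < N, outp U J D F f n = h n) ∧ st U J D F f N = X := by
  induction N with
  | zero =>
    intro X
    exact ⟨X, fun _ => 0, fun _ _ => rfl, fun n hn => absurd hn (by omega), rfl⟩
  | succ N ih =>
    intro X
    obtain ⟨x, e, hx, he⟩ := back_step U J D hUs hD X (h N)
    obtain ⟨F, f, hf, hout, hst⟩ := ih x
    refine ⟨F, fun n => if n = N then e else f n, ?_, ?_, ?_⟩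
    · intro n hn
      have : n ≠ N := by omega
      simp only [this, if_false]
      exact hf n (by omega)
    · intro n hn
      by_cases hnN : n = N
      · subst hnN
        simp only [outp]
        rw [st_congr U J D F _ f n (fun k hk => by simp [Nat.ne_of_lt hk]), hst]
        simp only [if_true]
        exact he
      · rw [outp_congr U J D F _ f n (fun k hk => by
          have : k ≠ N := by omega
          simp [this])]
        exact hout n (by omega)
    · simp only [st]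
      rw [st_congr U J D F _ f N (fun k hk => by simp [Nat.ne_of_lt hk]), hst]
      simp only [if_true]
      exact hx

lemma st_zero_of (F : K) (f : ℕ → E) (N : ℕ) (hN : st U J D F f N = 0)
    (hf : ∀ n, N ≤ n → f n = 0) (n : ℕ) (hn : N ≤ n) : st U J D F f n = 0 := by
  induction n, hn using Nat.le_induction with
  | base => exact hN
  | succ n hn ih =>
    simp only [st]
    rw [ih, hf n hn]
    simp

lemma outp_zero_of (F : K) (f : ℕ → E) (N : ℕ) (hN : st U J D F f N = 0)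
    (hf : ∀ n, N ≤ n → f n = 0) (n : ℕ) (hn : N ≤ n) : outp U J D F f n = 0 := by
  simp only [outp]
  rw [st_zero_of U J D F f N hN hf n hn, hf n hn]
  simp

/-- truncation of a sequence as an element of ℓ² -/
noncomputable def trunc (h : ℕ → E) (N : ℕ) : lp (fun _ : ℕ => E) 2 :=
  ∑ i ∈ Finset.range N, lp.single 2 i (h i)

omit [InnerProductSpace ℂ E] [CompleteSpace E] in
lemma trunc_apply (h : ℕ → E) (N n : ℕ) : (trunc h N) n = if n < N then h n else 0 := by
  classical
  rw [trunc, lp.coeFn_sum, Finset.sum_apply]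
  have : ∀ i ∈ Finset.range N, (lp.single 2 i (h i) : lp (fun _ : ℕ => E) 2) n
      = if n = i then h n else 0 := by
    intro i _
    rw [lp.coeFn_single]
    by_cases hni : n = i
    · subst hni; simp
    · rw [Pi.single_eq_of_ne hni]; simp [hni]
  rw [Finset.sum_congr rfl this]
  simp

omit [InnerProductSpace ℂ E] [CompleteSpace E] in
lemma trunc_normsq (h : ℕ → E) (N : ℕ) :
    ‖trunc h N‖ ^ 2 = ∑ n ∈ Finset.range N, ‖h n‖ ^ 2 := by
  rw [normsq_eq_tsum]
  rw [tsum_eq_sum (s := Finset.range N)]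
  · apply Finset.sum_congr rfl
    intro n hn
    rw [trunc_apply, if_pos (Finset.mem_range.1 hn)]
  · intro n hn
    rw [trunc_apply, if_neg (by simpa using hn)]
    simp

lemma coiso_trunc (hU : ∀ x, ‖U x‖ = ‖x‖) (hUs : ∀ x, U (adjoint U x) = x)
    (hD : ∀ e, D e + adjoint J (J (D e)) = e) (h : ℕ → E) (N : ℕ) :
    ‖trunc h N‖ ^ 2 ≤ ‖adjoint (obs U J D hU hD) (trunc h N)‖ ^ 2
      + ‖adjoint (io U J D hU hD) (trunc h N)‖ ^ 2 := by
  obtain ⟨F, f, hf, hout, hst⟩ := control U J D hUs hD h N 0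
  have hfe : ∀ n, (trunc f N) n = f n := by
    intro n
    rw [trunc_apply]
    by_cases hn : n < N
    · simp [hn]
    · rw [if_neg hn, hf n (by omega)]
  have hfe' : ((trunc f N : lp (fun _ : ℕ => E) 2) : ℕ → E) = f := funext hfe
  have hPsi : Psi U J D hU hD F (trunc f N) = trunc h N := by
    apply lp.ext
    funext n
    rw [Psi_apply, trunc_apply, hfe']
    by_cases hn : n < N
    · rw [if_pos hn]; exact hout n hn
    · rw [if_neg hn]; exact outp_zero_of U J D F f N hst hf n (by omega)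
  have hen : ‖F‖ ^ 2 + ‖trunc f N‖ ^ 2 = ‖trunc h N‖ ^ 2 := by
    rw [trunc_normsq, trunc_normsq]
    have := energy_sum U J D hU hD F f N
    rw [hst, norm_zero] at this
    have h2 : ∑ n ∈ Finset.range N, ‖outp U J D F f n‖ ^ 2
        = ∑ n ∈ Finset.range N, ‖h n‖ ^ 2 := by
      apply Finset.sum_congr rfl
      intro n hn
      rw [hout n (Finset.mem_range.1 hn)]
    rw [h2] at this
    linarith
  set H := trunc h N with hH
  set G := trunc f N with hG
  set a := ‖adjoint (obs U J D hU hD) H‖ with ha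
  set b := ‖adjoint (io U J D hU hD) H‖ with hb
  have hin : ‖H‖ ^ 2 ≤ a * ‖F‖ + b * ‖G‖ := by
    have h1 : (inner ℂ H (Psi U J D hU hD F G) : ℂ).re = ‖H‖ ^ 2 := by
      rw [hPsi, inner_self_eq_norm_sq_to_K]; norm_cast
    rw [Psi_eq, inner_add_right, Complex.add_re, ← adjoint_inner_left, ← adjoint_inner_left] at h1
    have h2 : (inner ℂ (adjoint (obs U J D hU hD) H) F : ℂ).re ≤ a * ‖F‖ :=
      (Complex.re_le_norm _).trans (norm_inner_le_norm _ _)
    have h3 : (inner ℂ (adjoint (io U J D hU hD) H) G : ℂ).re ≤ b * ‖G‖ :=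
      (Complex.re_le_norm _).trans (norm_inner_le_norm _ _)
    linarith
  have ha0 : 0 ≤ a := norm_nonneg _
  have hb0 : 0 ≤ b := norm_nonneg _
  have hF0 : 0 ≤ ‖F‖ := norm_nonneg _
  have hG0 : 0 ≤ ‖G‖ := norm_nonneg _
  have hCS : (a * ‖F‖ + b * ‖G‖) ^ 2 ≤ (a ^ 2 + b ^ 2) * (‖F‖ ^ 2 + ‖G‖ ^ 2) := by
    nlinarith [sq_nonneg (a * ‖G‖ - b * ‖F‖)]
  have hsq : (‖H‖ ^ 2) ^ 2 ≤ (a ^ 2 + b ^ 2) * ‖H‖ ^ 2 := by
    calc (‖H‖ ^ 2) ^ 2 ≤ (a * ‖F‖ + b * ‖G‖) ^ 2 := by
          apply pow_le_pow_left₀ (by positivity) hin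
      _ ≤ (a ^ 2 + b ^ 2) * (‖F‖ ^ 2 + ‖G‖ ^ 2) := hCS
      _ = (a ^ 2 + b ^ 2) * ‖H‖ ^ 2 := by rw [hen]
  by_cases hz : ‖H‖ ^ 2 = 0
  · rw [hz]; positivity
  · have hpos : 0 < ‖H‖ ^ 2 := lt_of_le_of_ne (by positivity) (Ne.symm hz)
    have : ‖H‖ ^ 2 * ‖H‖ ^ 2 ≤ (a ^ 2 + b ^ 2) * ‖H‖ ^ 2 := by
      calc ‖H‖ ^ 2 * ‖H‖ ^ 2 = (‖H‖ ^ 2) ^ 2 := by ring
        _ ≤ _ := hsq
    exact le_of_mul_le_mul_right this hpos

omit [InnerProductSpace ℂ E] [CompleteSpace E] in
lemma trunc_tendsto (h : lp (fun _ : ℕ => E) 2) :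
    Tendsto (fun N => trunc (h : ℕ → E) N) atTop (𝓝 h) := by
  have := lp.hasSum_single (p := 2) (by norm_num) h
  exact this.tendsto_sum_nat

lemma coiso (hU : ∀ x, ‖U x‖ = ‖x‖) (hUs : ∀ x, U (adjoint U x) = x)
    (hD : ∀ e, D e + adjoint J (J (D e)) = e) (h : lp (fun _ : ℕ => E) 2) :
    ‖h‖ ^ 2 ≤ ‖adjoint (obs U J D hU hD) h‖ ^ 2
      + ‖adjoint (io U J D hU hD) h‖ ^ 2 := by
  have ht := trunc_tendsto h
  have h1 : Tendsto (fun N => ‖trunc (h : ℕ → E) N‖ ^ 2) atTop (𝓝 (‖h‖ ^ 2)) :=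
    (ht.norm).pow 2
  have h2 : Tendsto (fun N => ‖adjoint (obs U J D hU hD) (trunc (h : ℕ → E) N)‖ ^ 2
      + ‖adjoint (io U J D hU hD) (trunc (h : ℕ → E) N)‖ ^ 2) atTop
      (𝓝 (‖adjoint (obs U J D hU hD) h‖ ^ 2 + ‖adjoint (io U J D hU hD) h‖ ^ 2)) := by
    apply Tendsto.add
    · exact ((((adjoint (obs U J D hU hD)).continuous.tendsto h).comp ht).norm).pow 2
    · exact ((((adjoint (io U J D hU hD)).continuous.tendsto h).comp ht).norm).pow 2
  exact le_of_tendsto_of_tendsto' h1 h2 (fun N => coiso_trunc U J D hU hUs hD h N)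

/-- recovery of the input from the resolvent equation. -/
lemma recover (hD : ∀ e, D e + adjoint J (J (D e)) = e) (F : K) (u : ℕ → E)
    (hu : ∀ n, outp U J D F (fun _ => 0) n = u n + outp U J D 0 u n) (n : ℕ) :
    st U J D F (fun _ => 0) n - st U J D 0 u n = (U ^ n) F ∧ u n = adjoint J ((U ^ n) F) := by
  have hDinj : ∀ e e' : E, D e = D e' → e = e' := by
    intro e e' h
    rw [← hD e, ← hD e', h]
  have hstep : ∀ n, st U J D F (fun _ => 0) n - st U J D 0 u n = (U ^ n) F →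
      u n = adjoint J ((U ^ n) F) := by
    intro n hn
    have h := hu n
    simp only [outp, add_zero, sub_zero] at h
    have h1 : (2 : ℂ) • D (adjoint J (st U J D F (fun _ => 0) n))
        = (2 : ℂ) • D (adjoint J (st U J D 0 u n) + u n) := by
      rw [h]; abel
    have h2 := smul_right_injective E (two_ne_zero : (2 : ℂ) ≠ 0) h1
    have h3 := hDinj _ _ h2
    rw [← hn, map_sub, h3]
    abel
  have hmain : ∀ n, st U J D F (fun _ => 0) n - st U J D 0 u n = (U ^ n) F := by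
    intro n
    induction n with
    | zero => simp [st]
    | succ n ih =>
      have hun := hstep n ih
      simp only [st, add_zero]
      rw [pow_succ', mul_apply_eq_comp, ← ih, ← map_sub]
      congr 1
      have h4 : adjoint J (st U J D F (fun _ => 0) n) = adjoint J (st U J D 0 u n) + u n := by
        rw [hun, ← ih, map_sub]; abel
      rw [h4]
      abel
  exact ⟨hmain n, hstep n (hmain n)⟩

/-- the Taylor coefficients of `B`. -/
noncomputable def bc : ℕ → (E →L[ℂ] E)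
  | 0 => (2 : ℂ) • D - 1
  | (n + 1) => ((2 : ℂ) • (D ∘L adjoint J)) ∘L
      ((U ∘L (1 - (2 : ℂ) • (J ∘L D ∘L adjoint J))) ^ n) ∘L (-((2 : ℂ) • (U ∘L J ∘L D)))

/-- the Taylor coefficients of `φ`. -/
noncomputable def phc (n : ℕ) : E →L[ℂ] E :=
  (2 : ℂ) • (adjoint J ∘L (U ^ n) ∘L J) - if n = 0 then adjoint J ∘L J else 0

lemma st_formula (u : ℕ → E) (n : ℕ) :
    st U J D 0 u n = ∑ k ∈ Finset.range n,
      ((U ∘L (1 - (2 : ℂ) • (J ∘L D ∘L adjoint J))) ^ k)
        ((-((2 : ℂ) • (U ∘L J ∘L D))) (u (n - 1 - k))) := by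
  induction n with
  | zero => simp [st]
  | succ n ih =>
    rw [Finset.sum_range_succ']
    simp only [st]
    have h1 : ∑ k ∈ Finset.range n, ((U ∘L (1 - (2 : ℂ) • (J ∘L D ∘L adjoint J))) ^ (k + 1))
        ((-((2 : ℂ) • (U ∘L J ∘L D))) (u (n + 1 - 1 - (k + 1))))
        = (U ∘L (1 - (2 : ℂ) • (J ∘L D ∘L adjoint J))) (st U J D 0 u n) := by
      rw [ih, map_sum]
      apply Finset.sum_congr rfl
      intro k hk
      have hk' : n + 1 - 1 - (k + 1) = n - 1 - k := by omega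
      rw [hk', pow_succ', mul_apply_eq_comp]
    rw [h1]
    simp only [pow_zero, one_apply_eq_self, ContinuousLinearMap.comp_apply,
      _root_.sub_apply, _root_.smul_apply,
      _root_.neg_apply, Nat.add_sub_cancel, Nat.sub_zero, map_sub, map_smul, map_add,
      smul_add]
    abel

lemma outp_formula (u : ℕ → E) (n : ℕ) :
    outp U J D 0 u n = ∑ k ∈ Finset.range (n + 1), (bc U J D k) (u (n - k)) := by
  rw [Finset.sum_range_succ']
  simp only [outp, bc]
  have h1 : ∑ k ∈ Finset.range n, (((2 : ℂ) • (D ∘L adjoint J)) ∘L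
      ((U ∘L (1 - (2 : ℂ) • (J ∘L D ∘L adjoint J))) ^ k) ∘L (-((2 : ℂ) • (U ∘L J ∘L D))))
        (u (n - (k + 1))) = ((2 : ℂ) • (D ∘L adjoint J)) (st U J D 0 u n) := by
    rw [st_formula, map_sum]
    apply Finset.sum_congr rfl
    intro k hk
    have hk' : n - (k + 1) = n - 1 - k := by omega
    rw [hk']
    rfl
  rw [h1]
  simp only [one_apply_eq_self, ContinuousLinearMap.comp_apply,
      _root_.sub_apply, _root_.smul_apply, Nat.sub_zero, map_add,
      smul_add]
  abel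

end Sys

end Pool.Agent.MPeb6598
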