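import Mathlib
import Pool.Agent.Lib.MP_eb6598_an.Sys2

set_option autoImplicit false
open scoped ENNReal NNReal Topology
open Filter ContinuousLinearMap

namespace Pool.Agent.MPeb6598

section Sqrt

variable {H : Type*} [NormedAddCommGroup H] [InnerProductSpace ℂ H] [CompleteSpace H]

/-- the square root of `1 - M M*`. -/
lemma exists_sqrt (M : H →L[ℂ] H)
    (hM : ∀ f, ‖adjoint M f‖ ≤ ‖f‖) :
    ∃ R : H →L[ℂ] H,
      (∀ f g : H, (inner ℂ (R f) g : ℂ) = (inner ℂ f (R g) : ℂ)) ∧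
      (∀ f : H, 0 ≤ (inner ℂ (R f) f : ℂ).re) ∧
      (∀ f : H, R (R f) = f - M (adjoint M f)) := by
  have hpos : (0 : H →L[ℂ] H) ≤ 1 - M ∘L adjoint M := by
    rw [ContinuousLinearMap.nonneg_iff_isPositive, isPositive_def']
    refine ⟨?_, ?_⟩
    · rw [IsSelfAdjoint, star_sub, star_one]
      congr 1
      rw [star_eq_adjoint, adjoint_comp, adjoint_adjoint]
    · intro x
      rw [reApplyInnerSelf_apply]
      rw [_root_.sub_apply, one_apply_eq_self, ContinuousLinearMap.comp_apply, inner_sub_left,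
        ← adjoint_inner_right, map_sub]
      have h1 : RCLike.re (inner ℂ x x : ℂ) = ‖x‖ ^ 2 := inner_self_eq_norm_sq x
      have h2 : RCLike.re (inner ℂ (adjoint M x) (adjoint M x) : ℂ) = ‖adjoint M x‖ ^ 2 :=
        inner_self_eq_norm_sq _
      rw [h1, h2]
      have := pow_le_pow_left₀ (norm_nonneg _) (hM x) 2
      linarith
  refine ⟨CFC.sqrt (1 - M ∘L adjoint M), ?_, ?_, ?_⟩
  · intro f g
    have h := (ContinuousLinearMap.nonneg_iff_isPositive _).1 (CFC.sqrt_nonneg (1 - M ∘L adjoint M))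
    exact h.isSymmetric f g
  · intro f
    have h := (ContinuousLinearMap.nonneg_iff_isPositive _).1 (CFC.sqrt_nonneg (1 - M ∘L adjoint M))
    exact h.re_inner_nonneg_left f
  · intro f
    have h := CFC.sqrt_mul_sqrt_self (1 - M ∘L adjoint M) hpos
    have h2 := congrArg (fun T => T f) h
    simpa using h2

end Sqrt

section Sys

variable {E K : Type} [NormedAddCommGroup E] [InnerProductSpace ℂ E] [CompleteSpace E]
  [NormedAddCommGroup K] [InnerProductSpace ℂ K] [CompleteSpace K]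

variable (U : K →L[ℂ] K) (J : E →L[ℂ] K) (D : E →L[ℂ] E)

omit [CompleteSpace K] in
lemma norm_pow_U (hU : ∀ x, ‖U x‖ = ‖x‖) (n : ℕ) (x : K) : ‖(U ^ n) x‖ = ‖x‖ := by
  induction n with
  | zero => simp
  | succ n ih => rw [pow_succ', mul_apply_eq_comp, hU, ih]

/-- positivity of the real part. -/
lemma phc_pos (hU : ∀ x, ‖U x‖ = ‖x‖) (z : ℂ) (hz : ‖z‖ < 1) :
    ∃ Φ : E →L[ℂ] E, HasSum (fun n : ℕ => z ^ n • phc U J n) Φ ∧
      ∀ x : E, 0 ≤ (inner ℂ (Φ x) x).re := by
  have hUn : ‖U‖ ≤ 1 := by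
    apply opNorm_le_bound _ zero_le_one
    intro x; rw [hU, one_mul]
  have hzU : ‖z • U‖ < 1 := by
    rw [norm_smul]
    calc ‖z‖ * ‖U‖ ≤ ‖z‖ * 1 := by gcongr
      _ < 1 := by linarith
  set W : K →L[ℂ] K := ∑' n : ℕ, (z • U) ^ n with hW
  have hsum : HasSum (fun n : ℕ => (z • U) ^ n) W :=
    (summable_geometric_of_norm_lt_one hzU).hasSum
  have hinv : (1 - z • U) * W = 1 := mul_neg_geom_series (z • U) hzU
  -- compose with J
  have h1 : HasSum (fun n : ℕ => (2 : ℂ) • (adjoint J ∘L ((z • U) ^ n) ∘L J))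
      ((2 : ℂ) • (adjoint J ∘L W ∘L J)) := by
    apply HasSum.const_smul
    have h2 := (hsum.mapL (((compL ℂ E K K).flip J))).mapL (compL ℂ E K E (adjoint J))
    exact h2
  have h3 : HasSum (fun n : ℕ => if n = 0 then adjoint J ∘L J else 0) (adjoint J ∘L J) :=
    hasSum_ite_eq 0 _
  refine ⟨(2 : ℂ) • (adjoint J ∘L W ∘L J) - adjoint J ∘L J, ?_, ?_⟩
  · have h4 := h1.sub h3
    have e : (fun n : ℕ => z ^ n • phc U J n)
        = fun n : ℕ => (2 : ℂ) • (adjoint J ∘L ((z • U) ^ n) ∘L J)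
          - if n = 0 then adjoint J ∘L J else 0 := by
      funext n
      rw [phc, smul_sub]
      congr 1
      · rw [smul_comm, smul_pow]
        congr 1
        ext x
        simp
      · by_cases hn : n = 0
        · subst hn; simp
        · simp [hn]
    rw [e]
    exact h4
  · intro x
    set w := W (J x) with hw
    have hJ : J x = w - z • U w := by
      have := congrArg (fun T => T (J x)) hinv
      simp only [mul_apply_eq_comp, one_apply_eq_self, _root_.sub_apply, _root_.smul_apply] at this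
      rw [← hw] at this
      exact this.symm
    have h5 : ((2 : ℂ) • (adjoint J ∘L W ∘L J) - adjoint J ∘L J) x
        = adjoint J ((2 : ℂ) • w - J x) := by
      simp [hw]
    rw [h5, adjoint_inner_left, hJ]
    have h6 : (2 : ℂ) • w - (w - z • U w) = w + z • U w := by
      rw [two_smul]; abel
    rw [h6, inner_add_left, inner_sub_right, inner_sub_right]
    have h7 : (inner ℂ w w : ℂ).re = ‖w‖ ^ 2 := by
      rw [inner_self_eq_norm_sq_to_K]; norm_cast
    have h8 : (inner ℂ (z • U w) (z • U w) : ℂ).re = (‖z‖ * ‖w‖) ^ 2 := by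
      rw [inner_self_eq_norm_sq_to_K, norm_smul, hU]; norm_cast
    have h9 : (inner ℂ w (z • U w) : ℂ).re = (inner ℂ (z • U w) w : ℂ).re := by
      rw [← inner_conj_symm]; simp only [Complex.conj_re]
    simp only [Complex.add_re, Complex.sub_re]
    rw [h7, h8, h9]
    have h10 : (‖z‖ * ‖w‖) ^ 2 ≤ ‖w‖ ^ 2 := by
      apply pow_le_pow_left₀ (by positivity)
      calc ‖z‖ * ‖w‖ ≤ 1 * ‖w‖ := by gcongr
        _ = ‖w‖ := one_mul _
    linarith

lemma bc_aux (n : ℕ) :
    ((U ∘L (1 - (2 : ℂ) • (J ∘L D ∘L adjoint J))) ^ n) ∘L (-((2 : ℂ) • (U ∘L J ∘L D)))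
      + ∑ k ∈ Finset.range (n + 1), (U ^ (k + 1)) ∘L J ∘L (bc U J D (n - k))
      = - ((U ^ (n + 1)) ∘L J) := by
  set T := U ∘L (1 - (2 : ℂ) • (J ∘L D ∘L adjoint J)) with hT
  set B' := (-((2 : ℂ) • (U ∘L J ∘L D)) : E →L[ℂ] K) with hB
  have hTx : ∀ x, T x = U x - U (J (((2 : ℂ) • (D ∘L adjoint J)) x)) := by
    intro x
    simp [hT]
  induction n with
  | zero =>
    ext x
    simp only [Finset.range_one, Finset.sum_singleton, pow_zero, Nat.sub_zero, zero_add, pow_one,
      bc, _root_.add_apply, ContinuousLinearMap.comp_apply, one_apply_eq_self,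
      _root_.sub_apply, _root_.smul_apply, _root_.neg_apply, hB, map_sub, map_smul]
    abel
  | succ n ih =>
    have h1 : (T ^ (n + 1)) ∘L B' = U ∘L ((T ^ n) ∘L B') - U ∘L J ∘L (bc U J D (n + 1)) := by
      ext x
      rw [pow_succ']
      simp only [ContinuousLinearMap.comp_apply, mul_apply_eq_comp, _root_.sub_apply]
      rw [hTx]
      rfl
    rw [h1, Finset.sum_range_succ']
    have h2 : ∑ k ∈ Finset.range (n + 1), (U ^ (k + 1 + 1)) ∘L J ∘L bc U J D (n + 1 - (k + 1))
        = U ∘L (∑ k ∈ Finset.range (n + 1), (U ^ (k + 1)) ∘L J ∘L bc U J D (n - k)) := by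
      ext x
      simp only [ContinuousLinearMap.comp_apply, _root_.sum_apply, map_sum]
      apply Finset.sum_congr rfl
      intro k _
      have hk' : n + 1 - (k + 1) = n - k := by omega
      rw [hk', pow_succ', mul_apply_eq_comp]
    rw [h2]
    have h3 : U ∘L ((T ^ n) ∘L B')
        + U ∘L (∑ k ∈ Finset.range (n + 1), (U ^ (k + 1)) ∘L J ∘L bc U J D (n - k))
        = - ((U ^ (n + 1 + 1)) ∘L J) := by
      rw [← ContinuousLinearMap.comp_add, ih]
      ext x
      simp only [ContinuousLinearMap.comp_apply, _root_.neg_apply, map_neg]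
      rw [pow_succ' U (n + 1), mul_apply_eq_comp]
    rw [← h3]
    simp only [zero_add, pow_one, Nat.sub_zero]
    abel

/-- the recursion `(1 + φ) B = 1 - φ`. -/
lemma bc_rec (hD : ∀ e, D e + adjoint J (J (D e)) = e) (n : ℕ) :
    bc U J D n + ∑ k ∈ Finset.range (n + 1), phc U J k * bc U J D (n - k)
      = (if n = 0 then (1 : E →L[ℂ] E) else 0) - phc U J n := by
  have hph0 : phc U J 0 = adjoint J ∘L J := by
    rw [phc, if_pos rfl, pow_zero]
    ext x
    have : ((2 : ℂ) • (adjoint J ∘L 1 ∘L J)) x = (2 : ℂ) • (adjoint J (J x)) := rfl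
    rw [_root_.sub_apply, this, two_smul, ContinuousLinearMap.comp_apply]
    abel
  have hph1 : ∀ k, phc U J (k + 1) = (2 : ℂ) • (adjoint J ∘L (U ^ (k + 1)) ∘L J) := by
    intro k
    rw [phc, if_neg (by omega), sub_zero]
  cases n with
  | zero =>
    rw [if_pos rfl]
    simp only [zero_add, Finset.range_one, Finset.sum_singleton, Nat.sub_zero]
    rw [hph0]
    ext x
    simp only [bc, _root_.add_apply, mul_apply_eq_comp, ContinuousLinearMap.comp_apply,
      _root_.sub_apply, _root_.smul_apply, one_apply_eq_self, map_sub, map_smul]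
    have h := hD x
    have h2 : (2 : ℂ) • (D x) + (2 : ℂ) • (adjoint J) (J (D x)) = (2 : ℂ) • x := by
      rw [← smul_add, h]
    have h3 : (2 : ℂ) • x = x + x := two_smul ℂ x
    rw [h3] at h2
    have h4 : (2 : ℂ) • D x - x + ((2 : ℂ) • (adjoint J) (J (D x)) - (adjoint J) (J x))
        = (2 : ℂ) • (D x) + (2 : ℂ) • (adjoint J) (J (D x)) - x - (adjoint J) (J x) := by abel
    rw [h4, h2]
    abel
  | succ n =>
    rw [if_neg (by omega), Finset.sum_range_succ']
    simp only [Nat.sub_zero]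
    rw [hph0, hph1]
    have hs : ∑ k ∈ Finset.range (n + 1), phc U J (k + 1) * bc U J D (n + 1 - (k + 1))
        = ((2 : ℂ) • adjoint J) ∘L
          (∑ k ∈ Finset.range (n + 1), (U ^ (k + 1)) ∘L J ∘L (bc U J D (n - k))) := by
      ext x
      simp only [ContinuousLinearMap.comp_apply, _root_.sum_apply, map_sum]
      apply Finset.sum_congr rfl
      intro k _
      have hk' : n + 1 - (k + 1) = n - k := by omega
      rw [hk', hph1]
      rfl
    have haux := bc_aux U J D n
    have haux2 : (∑ k ∈ Finset.range (n + 1), (U ^ (k + 1)) ∘L J ∘L (bc U J D (n - k)))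
        = - ((U ^ (n + 1)) ∘L J) -
        ((U ∘L (1 - (2 : ℂ) • (J ∘L D ∘L adjoint J))) ^ n) ∘L (-((2 : ℂ) • (U ∘L J ∘L D))) := by
      rw [← haux]; abel
    rw [hs, haux2]
    ext x
    set q := ((U ∘L (1 - (2 : ℂ) • (J ∘L D ∘L adjoint J))) ^ n)
      ((-((2 : ℂ) • (U ∘L J ∘L D))) x) with hq
    set y := ((U ^ (n + 1)) ∘L J) x with hy
    have hb : bc U J D (n + 1) x = (2 : ℂ) • D (adjoint J q) := rfl
    have e1 : (((2 : ℂ) • adjoint J) ∘L
        (- ((U ^ (n + 1)) ∘L J) -
        ((U ∘L (1 - (2 : ℂ) • (J ∘L D ∘L adjoint J))) ^ n) ∘L (-((2 : ℂ) • (U ∘L J ∘L D))))) x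
        = (2 : ℂ) • (adjoint J (-y - q)) := rfl
    have e2 : ((adjoint J ∘L J) * bc U J D (n + 1)) x = adjoint J (J ((2 : ℂ) • D (adjoint J q))) :=
      rfl
    have e3 : ((2 : ℂ) • (adjoint J ∘L (U ^ (n + 1)) ∘L J)) x = (2 : ℂ) • adjoint J y := rfl
    rw [_root_.add_apply, _root_.add_apply, hb, e1, e2, _root_.sub_apply, e3, _root_.zero_apply]
    have h := hD (adjoint J q)
    have h2 : (2 : ℂ) • D (adjoint J q) + (2 : ℂ) • (adjoint J) (J (D (adjoint J q)))
        = (2 : ℂ) • (adjoint J q) := by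
      rw [← smul_add, h]
    rw [map_smul, map_smul, map_sub, map_neg, smul_sub, smul_neg]
    rw [← h2]
    abel

end Sys

end Pool.Agent.MPeb6598
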