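import Mathlib
import Pool.Agent.Lib.MP_eb6598_an.Abs

set_option autoImplicit false
open scoped ENNReal NNReal Topology
open Filter ContinuousLinearMap

namespace Pool.Agent.MPeb6598

/-- The statement to be refuted (verbatim copy of the frozen statement). -/
def Stmt : Prop :=
    ∀ (E : Type) [NormedAddCommGroup E] [InnerProductSpace ℂ E] [CompleteSpace E]
      (φ b : ℕ → (E →L[ℂ] E)),
      (∀ z : ℂ, ‖z‖ < 1 → ∃ Φ : E →L[ℂ] E,
          HasSum (fun n : ℕ => z ^ n • φ n) Φ ∧ ∀ x : E, 0 ≤ (inner ℂ (Φ x) x).re) →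
      (∀ n : ℕ, b n + ∑ k ∈ Finset.range (n + 1), φ k * b (n - k)
          = (if n = 0 then (1 : E →L[ℂ] E) else 0) - φ n) →
      ∀ A : E →L[ℂ] E,
      (∀ x y : E, (inner ℂ (A x) y : ℂ)
          = (1 / 2 : ℂ) * ((inner ℂ ((φ 0) x) y : ℂ) + (inner ℂ x ((φ 0) y) : ℂ))) →
      (IsCompactOperator (A : E → E) ∧
        ∑' n : ℕ, (⨅ (F : E →L[ℂ] E)
            (_ : Module.rank ℂ (LinearMap.range (F : E →ₗ[ℂ] E)) ≤ (n : Cardinal)),
            ENNReal.ofReal ‖A - F‖) / ((n : ℝ≥0∞) + 1) < ⊤) →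
      ∀ M Ms R : lp (fun _ : ℕ => E) 2 →L[ℂ] lp (fun _ : ℕ => E) 2,
      (∀ (f : lp (fun _ : ℕ => E) 2) (n : ℕ),
          (M f) n = ∑ k ∈ Finset.range (n + 1), (b k) (f (n - k))) →
      (∀ f g : lp (fun _ : ℕ => E) 2, (inner ℂ (M f) g : ℂ) = (inner ℂ f (Ms g) : ℂ)) →
      (∀ f g : lp (fun _ : ℕ => E) 2, (inner ℂ (R f) g : ℂ) = (inner ℂ f (R g) : ℂ)) →
      (∀ f : lp (fun _ : ℕ => E) 2, 0 ≤ (inner ℂ (R f) f : ℂ).re) →
      (∀ f : lp (fun _ : ℕ => E) 2, R (R f) = f - M (Ms f)) →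
      ∀ g : ℕ → E,
        (∑' n, ENNReal.ofReal (‖g n‖ ^ 2)) +
          (⨅ (x : lp (fun _ : ℕ => E) 2)
            (_ : ∀ n : ℕ, (R x) n = ∑ k ∈ Finset.range (n + 1), (b k) (g (n - k))),
            ENNReal.ofReal (‖x‖ ^ 2)) < ⊤ →
        ∃ u : ℕ → lp (fun _ : ℕ => E) 2,
          (∀ j : ℕ,
            (⨅ (x : lp (fun _ : ℕ => E) 2)
              (_ : ∀ n : ℕ, (R x) n
                  = (u j) n + ∑ k ∈ Finset.range (n + 1), (b k) ((u j) (n - k))),
              ENNReal.ofReal (‖x‖ ^ 2)) < ⊤) ∧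
          (∀ ε : ℝ≥0∞, 0 < ε → ∃ N : ℕ, ∀ i ≥ N, ∀ j ≥ N,
            (⨅ (x : lp (fun _ : ℕ => E) 2)
              (_ : ∀ n : ℕ, (R x) n
                  = ((u i) n - (u j) n) +
                    ∑ k ∈ Finset.range (n + 1), (b k) ((u i) (n - k) - (u j) (n - k))),
              ENNReal.ofReal (‖x‖ ^ 2)) < ε) ∧
          Tendsto
            (fun j : ℕ =>
              (∑' n, ENNReal.ofReal (‖(u j + Ms (u j)) n - g n‖ ^ 2)) +
              (⨅ (x : lp (fun _ : ℕ => E) 2)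
                (_ : ∀ n : ℕ, (R x) n
                    = ∑ k ∈ Finset.range (n + 1),
                        (b k) ((u j + Ms (u j)) (n - k) - g (n - k))),
                ENNReal.ofReal (‖x‖ ^ 2)))
            atTop (𝓝 0)

section Sys

variable {E K : Type} [NormedAddCommGroup E] [InnerProductSpace ℂ E] [CompleteSpace E]
  [NormedAddCommGroup K] [InnerProductSpace ℂ K] [CompleteSpace K]

variable (U : K →L[ℂ] K) (J : E →L[ℂ] K) (D : E →L[ℂ] E)

/-- Square summable elements vanish when `U` is recurrent. -/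
lemma zero_of_recurrent
    (hrec : ∀ F : K, ∃ L : ℕ → ℕ, Tendsto L atTop atTop ∧
      Tendsto (fun j => (U ^ (L j)) F) atTop (𝓝 F))
    (F : K) (u : lp (fun _ : ℕ => E) 2) (hu : ∀ n, u n = adjoint J ((U ^ n) F)) : u = 0 := by
  obtain ⟨L, hL, hLF⟩ := hrec F
  apply lp.ext
  funext n
  have hs : Tendsto (fun m => ‖u m‖ ^ 2) atTop (𝓝 0) :=
    (hasSum_normsq u).summable.tendsto_atTop_zero
  have hnL : Tendsto (fun j => n + L j) atTop atTop :=
    tendsto_atTop_mono (fun j => Nat.le_add_left _ _) hL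
  have h1 : Tendsto (fun j => ‖u (n + L j)‖ ^ 2) atTop (𝓝 0) := hs.comp hnL
  have h2 : Tendsto (fun j => ‖u (n + L j)‖ ^ 2) atTop (𝓝 (‖u n‖ ^ 2)) := by
    have h3 : ∀ j, u (n + L j) = adjoint J ((U ^ n) ((U ^ (L j)) F)) := by
      intro j
      rw [hu, pow_add, mul_apply_eq_comp]
    have h4 : Tendsto (fun j => adjoint J ((U ^ n) ((U ^ (L j)) F))) atTop
        (𝓝 (adjoint J ((U ^ n) F))) :=
      ((adjoint J).continuous.tendsto _).comp (((U ^ n).continuous.tendsto _).comp hLF)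
    rw [← hu n] at h4
    have h5 := (h4.norm).pow 2
    refine h5.congr (fun j => ?_)
    rw [h3]
  have h6 := tendsto_nhds_unique h1 h2
  have h7 : ‖u n‖ = 0 := by
    have := pow_eq_zero_iff (n := 2) (by norm_num) |>.1 h6.symm
    exact this
  have h8 : u n = 0 := norm_eq_zero.1 h7
  rw [h8]; rfl

theorem abstract_neg (hU : ∀ x, ‖U x‖ = ‖x‖) (hUs : ∀ x, U (adjoint U x) = x)
    (hD : ∀ e, D e + adjoint J (J (D e)) = e)
    (hcomp : IsCompactOperator ((adjoint J ∘L J : E →L[ℂ] E) : E → E))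
    (hmat : ∑' n : ℕ, (⨅ (F : E →L[ℂ] E)
            (_ : Module.rank ℂ (LinearMap.range (F : E →ₗ[ℂ] E)) ≤ (n : Cardinal)),
            ENNReal.ofReal ‖(adjoint J ∘L J : E →L[ℂ] E) - F‖) / ((n : ℝ≥0∞) + 1) < ⊤)
    (hrec : ∀ F : K, ∃ L : ℕ → ℕ, Tendsto L atTop atTop ∧
      Tendsto (fun j => (U ^ (L j)) F) atTop (𝓝 F))
    (h0 : lp (fun _ : ℕ => E) 2) (hlt : ‖io U J D hU hD h0‖ < ‖h0‖) : ¬ Stmt := by
  intro hS
  set M := io U J D hU hD with hM
  set O := obs U J D hU hD with hO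
  have hMc : ∀ f, ‖M f‖ ≤ ‖f‖ := by
    intro f
    have h := Psi_normsq U J D hU hD 0 f
    rw [Psi_eq, map_zero, zero_add, norm_zero] at h
    apply le_of_sq_le_sq _ (norm_nonneg _)
    rw [← hM] at h
    linarith
  have hMsc : ∀ f, ‖adjoint M f‖ ≤ ‖f‖ := by
    intro f
    have h1 : ‖M‖ ≤ 1 := opNorm_le_bound _ zero_le_one (fun x => by rw [one_mul]; exact hMc x)
    have h2 : ‖adjoint M‖ ≤ 1 := by
      rw [LinearIsometryEquiv.norm_map]; exact h1
    calc ‖adjoint M f‖ ≤ ‖adjoint M‖ * ‖f‖ := le_opNorm _ _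
      _ ≤ 1 * ‖f‖ := by gcongr
      _ = ‖f‖ := one_mul _
  obtain ⟨R, hR1, hR2, hR3⟩ := exists_sqrt M hMsc
  set g : lp (fun _ : ℕ => E) 2 := h0 - adjoint M (M h0) with hg
  have hMform : ∀ (f : lp (fun _ : ℕ => E) 2) (n : ℕ),
      (M f) n = ∑ k ∈ Finset.range (n + 1), (bc U J D k) (f (n - k)) := by
    intro f n
    rw [hM, io_apply, outp_formula]
  have hph0 : phc U J 0 = adjoint J ∘L J := by
    rw [phc, if_pos rfl, pow_zero]
    ext x
    have : ((2 : ℂ) • (adjoint J ∘L 1 ∘L J)) x = (2 : ℂ) • (adjoint J (J x)) := rfl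
    rw [_root_.sub_apply, this, two_smul, ContinuousLinearMap.comp_apply]
    abel
  have hg0 : g ≠ 0 := by
    intro hg0
    have h1 : (inner ℂ g h0 : ℂ) = 0 := by rw [hg0, inner_zero_left]
    rw [hg, inner_sub_left, adjoint_inner_left] at h1
    have h2 := congrArg Complex.re h1
    have h7 : (inner ℂ h0 h0 : ℂ).re = ‖h0‖ ^ 2 := by
      rw [inner_self_eq_norm_sq_to_K]; norm_cast
    have h8 : (inner ℂ (M h0) (M h0) : ℂ).re = ‖M h0‖ ^ 2 := by
      rw [inner_self_eq_norm_sq_to_K]; norm_cast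
    rw [Complex.sub_re, h7, h8, Complex.zero_re] at h2
    have h3 : ‖M h0‖ ^ 2 < ‖h0‖ ^ 2 := pow_lt_pow_left₀ hlt (norm_nonneg _) (by norm_num)
    linarith
  have hgfin : (∑' n, ENNReal.ofReal (‖g n‖ ^ 2)) +
          (⨅ (x : lp (fun _ : ℕ => E) 2)
            (_ : ∀ n : ℕ, (R x) n = ∑ k ∈ Finset.range (n + 1), (bc U J D k) (g (n - k))),
            ENNReal.ofReal (‖x‖ ^ 2)) < ⊤ := by
    apply ENNReal.add_lt_top.2
    constructor
    · rw [← ENNReal.ofReal_tsum_of_nonneg (fun n => by positivity) (hasSum_normsq g).summable]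
      exact ENNReal.ofReal_lt_top
    · apply lt_of_le_of_lt (iInf₂_le (R (M h0)) _) ENNReal.ofReal_lt_top
      intro n
      rw [← hMform, hR3, hg, map_sub]
  obtain ⟨u, hu1, -, hu3⟩ := hS E (phc U J) (bc U J D) (fun z hz => phc_pos U J hU z hz)
    (bc_rec U J D hD) (adjoint J ∘L J) (by
      intro x y
      rw [hph0]
      simp only [ContinuousLinearMap.comp_apply]
      rw [adjoint_inner_left, adjoint_inner_right]
      ring) ⟨hcomp, hmat⟩ M (adjoint M) R hMform (by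
      intro f g
      rw [adjoint_inner_right]) hR1 hR2 hR3 g hgfin
  have hu0 : ∀ j, u j = 0 := by
    intro j
    have h := hu1 j
    have hex : ∃ x : lp (fun _ : ℕ => E) 2, ∀ n : ℕ, (R x) n
                  = (u j) n + ∑ k ∈ Finset.range (n + 1), (bc U J D k) ((u j) (n - k)) := by
      by_contra hne
      push Not at hne
      have : (⨅ (x : lp (fun _ : ℕ => E) 2)
              (_ : ∀ n : ℕ, (R x) n
                  = (u j) n + ∑ k ∈ Finset.range (n + 1), (bc U J D k) ((u j) (n - k))),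
              ENNReal.ofReal (‖x‖ ^ 2)) = ⊤ := by
        apply iInf₂_eq_top.2
        intro x hx
        obtain ⟨n, hn⟩ := hne x
        exact absurd (hx n) hn
      rw [this] at h
      exact lt_irrefl _ h
    obtain ⟨x, hx⟩ := hex
    have hbound : ∀ y : lp (fun _ : ℕ => E) 2,
        ‖(inner ℂ (R x) y : ℂ)‖ ≤ ‖x‖ * ‖adjoint O y‖ := by
      intro y
      rw [hR1]
      have h1 : ‖R y‖ ≤ ‖adjoint O y‖ := by
        apply le_of_sq_le_sq _ (norm_nonneg _)
        have h2 : ‖R y‖ ^ 2 = ‖y‖ ^ 2 - ‖adjoint M y‖ ^ 2 := by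
          have h3 : (inner ℂ (R y) (R y) : ℂ) = inner ℂ y y - inner ℂ (adjoint M y) (adjoint M y) := by
            rw [hR1, hR3, inner_sub_right, adjoint_inner_left]
          have h4 := congrArg Complex.re h3
          have h7 : (inner ℂ y y : ℂ).re = ‖y‖ ^ 2 := by
            rw [inner_self_eq_norm_sq_to_K]; norm_cast
          have h8 : (inner ℂ (adjoint M y) (adjoint M y) : ℂ).re = ‖adjoint M y‖ ^ 2 := by
            rw [inner_self_eq_norm_sq_to_K]; norm_cast
          have h9 : (inner ℂ (R y) (R y) : ℂ).re = ‖R y‖ ^ 2 := by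
            rw [inner_self_eq_norm_sq_to_K]; norm_cast
          rw [Complex.sub_re, h7, h8, h9] at h4
          exact h4
        have h5 := coiso U J D hU hUs hD y
        rw [← hO, ← hM] at h5
        linarith
      calc ‖(inner ℂ x (R y) : ℂ)‖ ≤ ‖x‖ * ‖R y‖ := norm_inner_le_norm _ _
        _ ≤ ‖x‖ * ‖adjoint O y‖ := by gcongr
    obtain ⟨F, hF⟩ := mem_range_of_bound O (R x) ‖x‖ hbound
    apply zero_of_recurrent U J hrec F
    intro n
    have hrecov := recover U J D hD F (u j : ℕ → E) (by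
      intro m
      have h1 := hx m
      rw [← hF, ← outp_formula] at h1
      exact h1) n
    exact hrecov.2
  -- conclude
  have hconst : ∀ j : ℕ, (∑' n, ENNReal.ofReal (‖g n‖ ^ 2)) ≤
      (∑' n, ENNReal.ofReal (‖(u j + adjoint M (u j)) n - g n‖ ^ 2)) +
              (⨅ (x : lp (fun _ : ℕ => E) 2)
                (_ : ∀ n : ℕ, (R x) n
                    = ∑ k ∈ Finset.range (n + 1),
                        (bc U J D k) ((u j + adjoint M (u j)) (n - k) - g (n - k))),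
                ENNReal.ofReal (‖x‖ ^ 2)) := by
    intro j
    refine le_trans (le_of_eq ?_) le_self_add
    congr 1
    funext n
    rw [hu0 j, map_zero, add_zero]
    have : (0 : lp (fun _ : ℕ => E) 2) n = 0 := rfl
    rw [this, zero_sub, norm_neg]
  have hle := ge_of_tendsto' hu3 hconst
  have hz : ∑' n, ENNReal.ofReal (‖g n‖ ^ 2) = 0 := le_antisymm hle zero_le
  apply hg0
  apply lp.ext
  funext n
  have h1 := ENNReal.tsum_eq_zero.1 hz n
  have h2 := ENNReal.ofReal_eq_zero.1 h1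
  have h3 : ‖g n‖ = 0 := by nlinarith [norm_nonneg (g n), sq_nonneg ‖g n‖]
  have h4 : g n = 0 := norm_eq_zero.1 h3
  rw [h4]; rfl

end Sys

end Pool.Agent.MPeb6598
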