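import Mathlib
import Pool.Agent.Lib.MP_eb6598_an.Basic

set_option autoImplicit false
open scoped ENNReal NNReal Topology
open Filter ContinuousLinearMap

namespace Pool.Agent.MPeb6598

/-- complex ℓ² space -/
noncomputable abbrev L2 (ι : Type) := lp (fun _ : ι => ℂ) 2

section Ops

variable {ι : Type}

lemma diag_mem (c : ι → ℂ) (C : ℝ) (hc : ∀ i, ‖c i‖ ≤ C) (x : L2 ι) (s : Finset ι) :
    ∑ i ∈ s, ‖c i * x i‖ ^ 2 ≤ C ^ 2 * ‖x‖ ^ 2 := by
  calc ∑ i ∈ s, ‖c i * x i‖ ^ 2 ≤ ∑ i ∈ s, C ^ 2 * ‖x i‖ ^ 2 := by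
        apply Finset.sum_le_sum
        intro i _
        rw [norm_mul, mul_pow]
        gcongr
        exact hc i
    _ = C ^ 2 * ∑ i ∈ s, ‖x i‖ ^ 2 := by rw [Finset.mul_sum]
    _ ≤ C ^ 2 * ‖x‖ ^ 2 := by
        gcongr
        exact sum_normsq_le x s

/-- diagonal operator -/
noncomputable def diagOp (c : ι → ℂ) (C : ℝ) (hC : 0 ≤ C) (hc : ∀ i, ‖c i‖ ≤ C) :
    L2 ι →L[ℂ] L2 ι :=
  LinearMap.mkContinuous
    { toFun := fun x => ⟨fun i => c i * x i, memlp_of_sum_le (diag_mem c C hc x)⟩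
      map_add' := by
        intro x y
        apply lp.ext
        funext i
        change c i * (x i + y i) = c i * x i + c i * y i
        ring
      map_smul' := by
        intro a x
        apply lp.ext
        funext i
        change c i * (a * x i) = a * (c i * x i)
        ring } C (by
    intro x
    apply le_of_sq_le_sq _ (by positivity)
    rw [mul_pow]
    exact normsq_le_of_sum_le _ (diag_mem c C hc x))

lemma diagOp_apply (c : ι → ℂ) (C : ℝ) (hC : 0 ≤ C) (hc : ∀ i, ‖c i‖ ≤ C) (x : L2 ι) (i : ι) :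
    (diagOp c C hC hc x) i = c i * x i := rfl

lemma diagOp_norm (c : ι → ℂ) (C : ℝ) (hC : 0 ≤ C) (hc : ∀ i, ‖c i‖ ≤ C) :
    ‖diagOp c C hC hc‖ ≤ C :=
  LinearMap.mkContinuous_norm_le _ hC _

lemma perm_mem (τ : ι ≃ ι) (x : L2 ι) (s : Finset ι) :
    ∑ i ∈ s, ‖x (τ i)‖ ^ 2 ≤ ‖x‖ ^ 2 := by
  have : ∑ i ∈ s, ‖x (τ i)‖ ^ 2 = ∑ j ∈ s.map τ.toEmbedding, ‖x j‖ ^ 2 := by
    rw [Finset.sum_map]; rfl
  rw [this]
  exact sum_normsq_le x _

/-- permutation operator -/
noncomputable def permOp (τ : ι ≃ ι) : L2 ι →L[ℂ] L2 ι :=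
  LinearMap.mkContinuous
    { toFun := fun x => ⟨fun i => x (τ i), memlp_of_sum_le (perm_mem τ x)⟩
      map_add' := by
        intro x y
        rfl
      map_smul' := by
        intro a x
        rfl } 1 (by
    intro x
    rw [one_mul]
    apply le_of_sq_le_sq _ (norm_nonneg _)
    exact normsq_le_of_sum_le _ (perm_mem τ x))

lemma permOp_apply (τ : ι ≃ ι) (x : L2 ι) (i : ι) : (permOp τ x) i = x (τ i) := rfl

lemma permOp_norm (τ : ι ≃ ι) (x : L2 ι) : ‖permOp τ x‖ = ‖x‖ := by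
  have h : ‖permOp τ x‖ ^ 2 = ‖x‖ ^ 2 := by
    rw [normsq_eq_tsum, normsq_eq_tsum]
    exact τ.tsum_eq (fun i => ‖x i‖ ^ 2)
  exact (pow_left_inj₀ (norm_nonneg _) (norm_nonneg _) (by norm_num)).1 h

lemma permOp_adj (τ : ι ≃ ι) (x : L2 ι) : permOp τ (adjoint (permOp τ) x) = x := by
  have h1 : adjoint (permOp τ) x = permOp τ.symm x := by
    apply ext_inner_right ℂ
    intro y
    rw [adjoint_inner_left]
    have h2 : y = permOp τ.symm (permOp τ y) := by
      apply lp.ext; funext i; rw [permOp_apply, permOp_apply]; simp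
    conv_rhs => rw [h2]
    rw [lp.inner_eq_tsum, lp.inner_eq_tsum]
    exact (τ.symm.tsum_eq (fun i => inner ℂ (x i) ((permOp τ y) i))).symm
  rw [h1]
  apply lp.ext; funext i; rw [permOp_apply, permOp_apply]; simp

lemma permOp_pow_apply (τ : ι ≃ ι) (n : ℕ) (x : L2 ι) (i : ι) :
    ((permOp τ ^ n) x) i = x ((τ^[n]) i) := by
  induction n generalizing x with
  | zero => simp
  | succ n ih =>
    rw [pow_succ, mul_apply_eq_comp, ih, permOp_apply, Function.iterate_succ_apply']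

lemma permOp_recurrent (τ : ι ≃ ι) (hτ : ∀ i, ∃ q : ℕ, 0 < q ∧ (τ^[q]) i = i) (F : L2 ι) :
    ∃ L : ℕ → ℕ, Tendsto L atTop atTop ∧
      Tendsto (fun j => (permOp τ ^ (L j)) F) atTop (𝓝 F) := by
  classical
  have hnorm : ∀ n (x : L2 ι), ‖(permOp τ ^ n) x‖ = ‖x‖ := by
    intro n x
    induction n with
    | zero => simp
    | succ n ih => rw [pow_succ', mul_apply_eq_comp, permOp_norm, ih]
  refine ⟨fun j => Nat.factorial j, ?_, ?_⟩
  · exact tendsto_atTop_mono (fun j => Nat.self_le_factorial j) tendsto_id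
  · rw [Metric.tendsto_atTop]
    intro ε hε
    have hs := lp.hasSum_single (p := 2) (by norm_num) F
    have hev := (Metric.tendsto_nhds.1 hs) (ε / 2) (by positivity)
    obtain ⟨s, hs2⟩ := hev.exists
    set G : L2 ι := ∑ i ∈ s, lp.single 2 i (F i) with hG
    choose q hq0 hq using hτ
    refine ⟨s.sup q, fun j hj => ?_⟩
    have hper : ∀ i ∈ s, (τ^[Nat.factorial j]) i = i := by
      intro i hi
      have h1 : q i ≤ j := le_trans (Finset.le_sup (f := q) hi) hj
      have h2 : q i ∣ Nat.factorial j := Nat.dvd_factorial (hq0 i) h1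
      obtain ⟨m, hm⟩ := h2
      rw [hm, Function.iterate_mul]
      exact Function.iterate_fixed (hq i) m
    have hGfix : (permOp τ ^ (Nat.factorial j)) G = G := by
      rw [hG, map_sum]
      apply Finset.sum_congr rfl
      intro i hi
      apply lp.ext
      funext m
      rw [permOp_pow_apply, lp.coeFn_single]
      by_cases hmi : m = i
      · rw [hmi, hper i hi]
      · have hne : (τ^[Nat.factorial j]) m ≠ i := by
          intro h
          apply hmi
          have hinj : Function.Injective (τ^[Nat.factorial j]) := τ.injective.iterate _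
          apply hinj
          rw [h, hper i hi]
        rw [Pi.single_eq_of_ne hne, Pi.single_eq_of_ne hmi]
    rw [dist_eq_norm] at hs2 ⊢
    have h3 : (permOp τ ^ (Nat.factorial j)) F - F
        = (G - F) - (permOp τ ^ (Nat.factorial j)) (G - F) := by
      rw [map_sub, hGfix]; abel
    rw [h3]
    calc ‖(G - F) - (permOp τ ^ (Nat.factorial j)) (G - F)‖
        ≤ ‖G - F‖ + ‖(permOp τ ^ (Nat.factorial j)) (G - F)‖ := norm_sub_le _ _
      _ = ‖G - F‖ + ‖G - F‖ := by rw [hnorm]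
      _ < ε := by linarith

end Ops

section JJ

lemma jop_mem (d : Bool → ℕ → ℝ) (C : ℝ) (hd : ∀ n, (d false n) ^ 2 + (d true n) ^ 2 ≤ C ^ 2)
    (x : L2 ℕ) (S : Finset (Bool × ℕ)) :
    ∑ i ∈ S, ‖(d i.1 i.2 : ℂ) * x i.2‖ ^ 2 ≤ C ^ 2 * ‖x‖ ^ 2 := by
  classical
  have hsub : S ⊆ (Finset.univ : Finset Bool) ×ˢ (S.image Prod.snd) := by
    intro i hi
    simp only [Finset.mem_product, Finset.mem_univ, true_and]
    exact Finset.mem_image_of_mem _ hi
  calc ∑ i ∈ S, ‖(d i.1 i.2 : ℂ) * x i.2‖ ^ 2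
      ≤ ∑ i ∈ (Finset.univ : Finset Bool) ×ˢ (S.image Prod.snd),
          ‖(d i.1 i.2 : ℂ) * x i.2‖ ^ 2 := by
        apply Finset.sum_le_sum_of_subset_of_nonneg hsub
        intro i _ _; positivity
    _ = ∑ n ∈ S.image Prod.snd, ∑ s : Bool, ‖(d s n : ℂ) * x n‖ ^ 2 := by
        rw [Finset.sum_product_right]
    _ ≤ ∑ n ∈ S.image Prod.snd, C ^ 2 * ‖x n‖ ^ 2 := by
        apply Finset.sum_le_sum
        intro n _
        have : ∑ s : Bool, ‖(d s n : ℂ) * x n‖ ^ 2
            = ((d false n) ^ 2 + (d true n) ^ 2) * ‖x n‖ ^ 2 := by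
          rw [Fintype.sum_bool, norm_mul, norm_mul, Complex.norm_real, Complex.norm_real,
            Real.norm_eq_abs, Real.norm_eq_abs, mul_pow, mul_pow, sq_abs, sq_abs]
          ring
        rw [this]
        gcongr
        exact hd n
    _ = C ^ 2 * ∑ n ∈ S.image Prod.snd, ‖x n‖ ^ 2 := by rw [Finset.mul_sum]
    _ ≤ C ^ 2 * ‖x‖ ^ 2 := by
        gcongr
        exact sum_normsq_le x _

/-- The coupling operator `J`. -/
noncomputable def jop (d : Bool → ℕ → ℝ) (C : ℝ) (hC : 0 ≤ C)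
    (hd : ∀ n, (d false n) ^ 2 + (d true n) ^ 2 ≤ C ^ 2) :
    L2 ℕ →L[ℂ] L2 (Bool × ℕ) :=
  LinearMap.mkContinuous
    { toFun := fun x => ⟨fun i => (d i.1 i.2 : ℂ) * x i.2, memlp_of_sum_le (jop_mem d C hd x)⟩
      map_add' := by
        intro x y
        apply lp.ext
        funext i
        change (d i.1 i.2 : ℂ) * (x i.2 + y i.2) = (d i.1 i.2 : ℂ) * x i.2 + (d i.1 i.2 : ℂ) * y i.2
        ring
      map_smul' := by
        intro a x
        apply lp.ext
        funext i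
        change (d i.1 i.2 : ℂ) * (a * x i.2) = a * ((d i.1 i.2 : ℂ) * x i.2)
        ring } C (by
    intro x
    apply le_of_sq_le_sq _ (by positivity)
    rw [mul_pow]
    exact normsq_le_of_sum_le _ (jop_mem d C hd x))

variable (d : Bool → ℕ → ℝ) (C : ℝ) (hC : 0 ≤ C)
    (hd : ∀ n, (d false n) ^ 2 + (d true n) ^ 2 ≤ C ^ 2)

lemma jop_apply (x : L2 ℕ) (i : Bool × ℕ) : (jop d C hC hd x) i = (d i.1 i.2 : ℂ) * x i.2 := rfl

lemma inner_single_nat (n : ℕ) (x : L2 ℕ) :
    (inner ℂ (lp.single 2 n (1 : ℂ) : L2 ℕ) x : ℂ) = x n := by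
  rw [lp.inner_single_left]; simp

lemma jop_single (n : ℕ) : jop d C hC hd (lp.single 2 n (1 : ℂ))
    = (d false n : ℂ) • (lp.single 2 (false, n) (1 : ℂ) : L2 (Bool × ℕ))
      + (d true n : ℂ) • (lp.single 2 (true, n) (1 : ℂ) : L2 (Bool × ℕ)) := by
  apply lp.ext
  funext i
  rw [jop_apply, lp.coeFn_add, Pi.add_apply, lp.coeFn_smul, lp.coeFn_smul, Pi.smul_apply,
    Pi.smul_apply, lp.coeFn_single, lp.coeFn_single, lp.coeFn_single]
  obtain ⟨s, m⟩ := i
  by_cases hm : m = n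
  · subst hm
    cases s <;> simp
  · cases s <;> simp [hm]

lemma jop_adj_apply (y : L2 (Bool × ℕ)) (n : ℕ) :
    (adjoint (jop d C hC hd) y) n = (d false n : ℂ) * y (false, n) + (d true n : ℂ) * y (true, n) := by
  rw [← inner_single_nat, adjoint_inner_right, jop_single, inner_add_left, inner_smul_left,
    inner_smul_left, lp.inner_single_left, lp.inner_single_left]
  simp

lemma jop_adj_jop (x : L2 ℕ) (n : ℕ) :
    (adjoint (jop d C hC hd) (jop d C hC hd x)) n
      = (((d false n) ^ 2 + (d true n) ^ 2 : ℝ) : ℂ) * x n := by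
  rw [jop_adj_apply, jop_apply, jop_apply]
  push_cast
  ring

end JJ

end Pool.Agent.MPeb6598
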