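import Mathlib

set_option autoImplicit false

namespace Pool.Agent.MPeb6598

/-- forward cyclic shift on the blocks `[a 4^j, a 4^(j+1))`. -/
def fwd (a n : ℕ) : ℕ :=
  if n < a then n
  else if n + 1 = a * 4 ^ (Nat.log 4 (n / a) + 1) then a * 4 ^ (Nat.log 4 (n / a)) else n + 1

/-- backward cyclic shift on the blocks `[a 4^j, a 4^(j+1))`. -/
def bwd (a n : ℕ) : ℕ :=
  if n < a then n
  else if n = a * 4 ^ (Nat.log 4 (n / a)) then a * 4 ^ (Nat.log 4 (n / a) + 1) - 1 else n - 1

lemma log_block (a : ℕ) (ha : 0 < a) (m j : ℕ) (h1 : a * 4 ^ j ≤ m) (h2 : m < a * 4 ^ (j + 1)) :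
    Nat.log 4 (m / a) = j := by
  apply Nat.log_eq_of_pow_le_of_lt_pow
  · rw [Nat.le_div_iff_mul_le ha, mul_comm]; exact h1
  · rw [Nat.div_lt_iff_lt_mul ha, mul_comm]; exact h2

lemma block_of (a : ℕ) (ha : 0 < a) (n : ℕ) (hn : a ≤ n) :
    a * 4 ^ (Nat.log 4 (n / a)) ≤ n ∧ n < a * 4 ^ (Nat.log 4 (n / a) + 1) := by
  have h0 : n / a ≠ 0 := by
    have := (Nat.div_pos hn ha)
    omega
  constructor
  · have := Nat.pow_log_le_self 4 h0
    rw [Nat.le_div_iff_mul_le ha] at this
    rw [mul_comm]; exact this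
  · have := Nat.lt_pow_succ_log_self (b := 4) (by norm_num) (n / a)
    rw [Nat.div_lt_iff_lt_mul ha] at this
    rw [mul_comm]; exact this

lemma fwd_bwd (a : ℕ) (ha : 0 < a) (n : ℕ) : fwd a (bwd a n) = n := by
  by_cases hn : n < a
  · simp [bwd, fwd, hn]
  · push Not at hn
    obtain ⟨h1, h2⟩ := block_of a ha n hn
    set j := Nat.log 4 (n / a) with hj
    have h4 : 0 < 4 ^ j := by positivity
    have hp : a * 4 ^ (j + 1) = 4 * (a * 4 ^ j) := by rw [pow_succ]; ring
    have h5 : a ≤ a * 4 ^ j := Nat.le_mul_of_pos_right a h4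
    by_cases hc : n = a * 4 ^ j
    · have hb : bwd a n = a * 4 ^ (j + 1) - 1 := by
        rw [bwd, if_neg (by omega), ← hj, if_pos hc]
      rw [hb]
      have hk := log_block a ha (a * 4 ^ (j + 1) - 1) j (by omega) (by omega)
      rw [fwd, if_neg (by omega), hk, if_pos (by omega), hc]
    · have hb : bwd a n = n - 1 := by
        rw [bwd, if_neg (by omega), ← hj, if_neg hc]
      rw [hb]
      have hk := log_block a ha (n - 1) j (by omega) (by omega)
      rw [fwd, if_neg (by omega), hk, if_neg (by omega)]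
      omega

lemma bwd_fwd (a : ℕ) (ha : 0 < a) (n : ℕ) : bwd a (fwd a n) = n := by
  by_cases hn : n < a
  · simp [bwd, fwd, hn]
  · push Not at hn
    obtain ⟨h1, h2⟩ := block_of a ha n hn
    set j := Nat.log 4 (n / a) with hj
    have h4 : 0 < 4 ^ j := by positivity
    have hp : a * 4 ^ (j + 1) = 4 * (a * 4 ^ j) := by rw [pow_succ]; ring
    have h5 : a ≤ a * 4 ^ j := Nat.le_mul_of_pos_right a h4
    by_cases hc : n + 1 = a * 4 ^ (j + 1)
    · have hb : fwd a n = a * 4 ^ j := by
        rw [fwd, if_neg (by omega), ← hj, if_pos hc]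
      rw [hb]
      have hk := log_block a ha (a * 4 ^ j) j (by omega) (by omega)
      rw [bwd, if_neg (by omega), hk, if_pos rfl]
      omega
    · have hb : fwd a n = n + 1 := by
        rw [fwd, if_neg (by omega), ← hj, if_neg hc]
      rw [hb]
      have hk := log_block a ha (n + 1) j (by omega) (by omega)
      rw [bwd, if_neg (by omega), hk, if_neg (by omega)]
      omega

lemma bwd_lt (a : ℕ) (ha : 0 < a) (J n : ℕ) (hn : n < a * 4 ^ J) : bwd a n < a * 4 ^ J := by
  by_cases hna : n < a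
  · simp [bwd, hna]; exact hn
  · push Not at hna
    obtain ⟨h1, h2⟩ := block_of a ha n hna
    set j := Nat.log 4 (n / a) with hj
    by_cases hc : n = a * 4 ^ j
    · have hb : bwd a n = a * 4 ^ (j + 1) - 1 := by
        rw [bwd, if_neg (by omega), ← hj, if_pos hc]
      rw [hb]
      have hlt : a * 4 ^ j < a * 4 ^ J := by omega
      have hlt2 : 4 ^ j < 4 ^ J := Nat.lt_of_mul_lt_mul_left hlt
      have hlt3 : j < J := (Nat.pow_lt_pow_iff_right (by norm_num)).1 hlt2
      have hle : 4 ^ (j + 1) ≤ 4 ^ J := Nat.pow_le_pow_right (by norm_num) hlt3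
      have hle2 : a * 4 ^ (j + 1) ≤ a * 4 ^ J := Nat.mul_le_mul_left a hle
      have hpos : 0 < a * 4 ^ (j + 1) := by positivity
      omega
    · have hb : bwd a n = n - 1 := by
        rw [bwd, if_neg (by omega), ← hj, if_neg hc]
      rw [hb]
      omega

lemma bwd_inj (a : ℕ) (ha : 0 < a) : Function.Injective (bwd a) :=
  Function.LeftInverse.injective (fwd_bwd a ha)

lemma bwd_periodic (a : ℕ) (ha : 0 < a) (n : ℕ) : ∃ q : ℕ, 0 < q ∧ ((bwd a)^[q]) n = n := by
  -- the orbit of `n` stays in a finite set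
  have hex : ∃ J, n < a * 4 ^ J := by
    refine ⟨n, ?_⟩
    calc n < 4 ^ n := Nat.lt_pow_self (by norm_num)
      _ ≤ a * 4 ^ n := Nat.le_mul_of_pos_left _ ha
  obtain ⟨J, hJ⟩ := hex
  have horb : ∀ q, ((bwd a)^[q]) n < a * 4 ^ J := by
    intro q
    induction q with
    | zero => exact hJ
    | succ q ih => rw [Function.iterate_succ_apply']; exact bwd_lt a ha J _ ih
  obtain ⟨i, j, hij, heq⟩ := Finite.exists_ne_map_eq_of_infinite
    (fun q : ℕ => (⟨((bwd a)^[q]) n, horb q⟩ : Fin (a * 4 ^ J)))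
  have heq' : ((bwd a)^[i]) n = ((bwd a)^[j]) n := by
    have := congrArg Fin.val heq
    exact this
  rcases lt_or_gt_of_ne hij with h | h
  · refine ⟨j - i, by omega, ?_⟩
    have hj : j = i + (j - i) := by omega
    rw [hj, Function.iterate_add_apply] at heq'
    exact (((bwd_inj a ha).iterate i) heq').symm
  · refine ⟨i - j, by omega, ?_⟩
    have hj : i = j + (i - j) := by omega
    rw [hj, Function.iterate_add_apply] at heq'
    exact (((bwd_inj a ha).iterate j) heq')

/-- the permutation of `Bool × ℕ`: backward shift on both components. -/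
def tau : Bool × ℕ ≃ Bool × ℕ where
  toFun i := (i.1, bwd (cond i.1 2 1) i.2)
  invFun i := (i.1, fwd (cond i.1 2 1) i.2)
  left_inv := by
    rintro ⟨s, n⟩
    cases s <;> simp [fwd_bwd]
  right_inv := by
    rintro ⟨s, n⟩
    cases s <;> simp [bwd_fwd]

lemma tau_iter (s : Bool) (n q : ℕ) : (tau^[q]) (s, n) = (s, ((bwd (cond s 2 1))^[q]) n) := by
  induction q with
  | zero => rfl
  | succ q ih =>
    rw [Function.iterate_succ_apply', ih, Function.iterate_succ_apply']
    rfl

lemma tau_periodic (i : Bool × ℕ) : ∃ q : ℕ, 0 < q ∧ (tau^[q]) i = i := by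
  obtain ⟨s, n⟩ := i
  obtain ⟨q, hq, hq2⟩ := bwd_periodic (cond s 2 1) (by cases s <;> simp) n
  exact ⟨q, hq, by rw [tau_iter, hq2]⟩

end Pool.Agent.MPeb6598
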