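import Mathlib
import Pool.Agent.Lib.MP_eb6598_an.Perm

set_option autoImplicit false

namespace Pool.Agent.MPeb6598

/-- radius -/
noncomputable def rho (n : ℕ) : ℝ := Real.sqrt (1 + 1 / Real.sqrt n)

/-- angle -/
noncomputable def th (n : ℕ) : ℝ := (Real.pi / 2) * (Real.logb 2 n - 1)

/-- the path -/
noncomputable def X (s : Bool) (n : ℕ) : ℝ := rho n * cond s (Real.sin (th n)) (Real.cos (th n))

/-- energy loss -/
noncomputable def ell (n : ℕ) : ℝ := 1 / Real.sqrt n - 1 / Real.sqrt ((n : ℝ) + 1)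

/-- coupling coefficients -/
noncomputable def dd (s : Bool) (n : ℕ) : ℝ :=
  if n < 2 then (if n = 1 ∧ s = false then 1 else 0) else (X s n - X s (n + 1)) / Real.sqrt (ell n)

/-- eigenvalues of the real part -/
noncomputable def lam (n : ℕ) : ℝ := (dd false n) ^ 2 + (dd true n) ^ 2

lemma rho_sq (n : ℕ) : rho n ^ 2 = 1 + 1 / Real.sqrt n := by
  rw [rho, Real.sq_sqrt]; positivity

lemma one_le_rho (n : ℕ) : 1 ≤ rho n := by
  rw [rho]
  apply Real.one_le_sqrt.2
  have : 0 ≤ 1 / Real.sqrt n := by positivity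
  linarith

lemma X_sq (n : ℕ) : (X false n) ^ 2 + (X true n) ^ 2 = 1 + 1 / Real.sqrt n := by
  rw [← rho_sq]
  simp only [X, cond_true, cond_false]
  have := Real.sin_sq_add_cos_sq (th n)
  calc (rho n * Real.cos (th n)) ^ 2 + (rho n * Real.sin (th n)) ^ 2
      = rho n ^ 2 * (Real.sin (th n) ^ 2 + Real.cos (th n) ^ 2) := by ring
    _ = rho n ^ 2 := by rw [this, mul_one]

lemma ell_pos (n : ℕ) (hn : 1 ≤ n) : 0 < ell n := by
  rw [ell, sub_pos]
  apply one_div_lt_one_div_of_lt
  · apply Real.sqrt_pos.2; exact_mod_cast hn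
  · apply Real.sqrt_lt_sqrt (by positivity); linarith

lemma ell_eq (n : ℕ) : ell n = rho n ^ 2 - rho (n + 1) ^ 2 := by
  rw [rho_sq, rho_sq, ell]; push_cast; ring

lemma dd_of_two_le (s : Bool) (n : ℕ) (hn : 2 ≤ n) :
    dd s n = (X s n - X s (n + 1)) / Real.sqrt (ell n) := by
  rw [dd, if_neg (by omega)]

lemma dist_sq (n : ℕ) : (X false n - X false (n + 1)) ^ 2 + (X true n - X true (n + 1)) ^ 2
    = 2 * ((X false n - X false (n + 1)) * X false n + (X true n - X true (n + 1)) * X true n)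
      - ell n := by
  have h1 := X_sq n
  have h2 := X_sq (n + 1)
  have h3 : ell n = (1 + 1 / Real.sqrt n) - (1 + 1 / Real.sqrt ((n + 1 : ℕ) : ℝ)) := by
    rw [ell]; push_cast; ring
  rw [h3, ← h1, ← h2]
  ring

lemma lam_eq (n : ℕ) (hn : 2 ≤ n) :
    lam n = ((X false n - X false (n + 1)) ^ 2 + (X true n - X true (n + 1)) ^ 2) / ell n := by
  have h := ell_pos n (by omega)
  rw [lam, dd_of_two_le _ _ hn, dd_of_two_le _ _ hn, div_pow, div_pow, Real.sq_sqrt h.le]
  ring

lemma dd_X (n : ℕ) (hn : 2 ≤ n) :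
    dd false n * X false n + dd true n * X true n = Real.sqrt (ell n) * (1 + lam n) / 2 := by
  have h := ell_pos n (by omega)
  have hs : 0 < Real.sqrt (ell n) := Real.sqrt_pos.2 h
  have hss : Real.sqrt (ell n) * Real.sqrt (ell n) = ell n := Real.mul_self_sqrt h.le
  rw [lam_eq n hn, dist_sq, dd_of_two_le _ _ hn, dd_of_two_le _ _ hn]
  set q := (X false n - X false (n + 1)) * X false n + (X true n - X true (n + 1)) * X true n with hq
  have e1 : (X false n - X false (n + 1)) / Real.sqrt (ell n) * X false n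
      + (X true n - X true (n + 1)) / Real.sqrt (ell n) * X true n = q / Real.sqrt (ell n) := by
    rw [hq]; ring
  rw [e1]
  have e2 : Real.sqrt (ell n) * (1 + (2 * q - ell n) / ell n) / 2
      = Real.sqrt (ell n) * (q / ell n) := by
    field_simp
    ring
  rw [e2]
  rw [div_eq_iff hs.ne']
  have e3 : Real.sqrt (ell n) * (q / ell n) * Real.sqrt (ell n)
      = (Real.sqrt (ell n) * Real.sqrt (ell n)) * (q / ell n) := by ring
  rw [e3, hss]
  field_simp

lemma lam_nonneg (n : ℕ) : 0 ≤ lam n := by rw [lam]; positivity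

lemma cos_cut (j : ℕ) : Real.cos (th (4 ^ j)) = 0 := by
  have h : th (4 ^ j) = (Real.pi / 2) * (2 * (j : ℝ) - 1) := by
    rw [th]
    congr 2
    have : ((4 ^ j : ℕ) : ℝ) = (2 : ℝ) ^ ((2 * j : ℕ) : ℝ) := by
      rw [Real.rpow_natCast, pow_mul]; push_cast; norm_num
    rw [this, Real.logb_rpow (by norm_num) (by norm_num)]
    push_cast; ring
  rw [h, Real.cos_eq_zero_iff]
  refine ⟨(j : ℤ) - 1, ?_⟩
  push_cast; ring

lemma sin_cut (j : ℕ) : Real.sin (th (2 * 4 ^ j)) = 0 := by
  have h : th (2 * 4 ^ j) = (j : ℝ) * Real.pi := by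
    rw [th]
    have : ((2 * 4 ^ j : ℕ) : ℝ) = (2 : ℝ) ^ ((2 * j + 1 : ℕ) : ℝ) := by
      rw [Real.rpow_natCast, pow_succ, pow_mul]; push_cast; norm_num; ring
    rw [this, Real.logb_rpow (by norm_num) (by norm_num)]
    push_cast; ring
  rw [h]
  exact Real.sin_nat_mul_pi j

lemma th_two : th 2 = 0 := by
  rw [th]
  have : Real.logb 2 ((2 : ℕ) : ℝ) = 1 := by
    push_cast
    exact Real.logb_self_eq_one (by norm_num)
  rw [this]; ring

/-- The path component vanishes where the permutation cuts. -/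
lemma X_cut (s : Bool) (n : ℕ) (hn : 1 ≤ n) (h : bwd (cond s 2 1) (n + 1) ≠ n) :
    X s (n + 1) = 0 := by
  cases s with
  | false =>
    simp only [cond_false] at h
    have hb : n + 1 = 1 * 4 ^ (Nat.log 4 ((n + 1) / 1)) := by
      by_contra hc
      apply h
      rw [bwd, if_neg (by omega), if_neg hc]; omega
    rw [one_mul] at hb
    simp only [X, cond_false]
    rw [hb, cos_cut, mul_zero]
  | true =>
    simp only [cond_true] at h
    have hb : n + 1 = 2 * 4 ^ (Nat.log 4 ((n + 1) / 2)) := by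
      by_contra hc
      apply h
      rw [bwd, if_neg (by omega), if_neg hc]; omega
    simp only [X, cond_true]
    rw [hb, sin_cut, mul_zero]

/-- angle increments -/
lemma th_diff (n : ℕ) (hn : 1 ≤ n) : |th (n + 1) - th n| ≤ 3 / n := by
  have hn' : (0 : ℝ) < n := by exact_mod_cast hn
  have h1 : th (n + 1) - th n = (Real.pi / 2) * (Real.log (1 + 1 / n) / Real.log 2) := by
    rw [th, th, Real.logb, Real.logb]
    have : Real.log (1 + 1 / (n : ℝ)) = Real.log ((n + 1 : ℕ) : ℝ) - Real.log n := by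
      rw [← Real.log_div (by positivity) hn'.ne']
      congr 1
      push_cast
      field_simp
    rw [this]; ring
  have h2 : 0 ≤ Real.log (1 + 1 / (n : ℝ)) := Real.log_nonneg (by
    have : 0 ≤ 1 / (n : ℝ) := by positivity
    linarith)
  have h3 : Real.log (1 + 1 / (n : ℝ)) ≤ 1 / n := by
    have := Real.log_le_sub_one_of_pos (show (0 : ℝ) < 1 + 1 / n by positivity)
    linarith
  have hl2 : 0.6931471803 < Real.log 2 := Real.log_two_gt_d9
  have hpi : Real.pi < 3.15 := Real.pi_lt_d2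
  have hpi0 : 0 < Real.pi := Real.pi_pos
  rw [h1, abs_of_nonneg (by positivity)]
  calc (Real.pi / 2) * (Real.log (1 + 1 / n) / Real.log 2)
      ≤ (Real.pi / 2) * ((1 / n) / Real.log 2) := by gcongr
    _ = (Real.pi / 2 / Real.log 2) * (1 / n) := by ring
    _ ≤ 3 * (1 / n) := by
        gcongr
        rw [div_le_iff₀ (by linarith)]
        nlinarith
    _ = 3 / n := by ring

lemma dist_le (n : ℕ) (hn : 2 ≤ n) :
    (X false n - X false (n + 1)) ^ 2 + (X true n - X true (n + 1)) ^ 2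
      ≤ ell n ^ 2 + 18 / (n : ℝ) ^ 2 := by
  have hn' : (0 : ℝ) < n := by exact_mod_cast (by omega : 0 < n)
  have hcos : Real.cos (th (n + 1) - th n)
      = Real.cos (th (n + 1)) * Real.cos (th n) + Real.sin (th (n + 1)) * Real.sin (th n) :=
    Real.cos_sub _ _
  have h1 : (X false n - X false (n + 1)) ^ 2 + (X true n - X true (n + 1)) ^ 2
      = (rho n - rho (n + 1)) ^ 2
        + 2 * (rho n * rho (n + 1)) * (1 - Real.cos (th (n + 1) - th n)) := by
    rw [hcos]
    simp only [X, cond_false, cond_true]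
    have e1 := Real.sin_sq_add_cos_sq (th n)
    have e2 := Real.sin_sq_add_cos_sq (th (n + 1))
    have e3 : (rho n * Real.cos (th n) - rho (n + 1) * Real.cos (th (n + 1))) ^ 2
        + (rho n * Real.sin (th n) - rho (n + 1) * Real.sin (th (n + 1))) ^ 2
        = rho n ^ 2 * (Real.sin (th n) ^ 2 + Real.cos (th n) ^ 2)
          + rho (n + 1) ^ 2 * (Real.sin (th (n + 1)) ^ 2 + Real.cos (th (n + 1)) ^ 2)
          - 2 * (rho n * rho (n + 1)) * (Real.cos (th (n + 1)) * Real.cos (th n)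
            + Real.sin (th (n + 1)) * Real.sin (th n)) := by ring
    rw [e3, e1, e2]; ring
  rw [h1]
  have hell := ell_pos n (by omega)
  have hr1 := one_le_rho n
  have hr2 := one_le_rho (n + 1)
  have h2 : (rho n - rho (n + 1)) ^ 2 ≤ ell n ^ 2 := by
    have he := ell_eq n
    have h3 : ell n = (rho n - rho (n + 1)) * (rho n + rho (n + 1)) := by rw [he]; ring
    have h4 : 0 ≤ rho n - rho (n + 1) := by
      by_contra hneg
      push Not at hneg
      have : (rho n - rho (n + 1)) * (rho n + rho (n + 1)) < 0 :=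
        mul_neg_of_neg_of_pos hneg (by linarith)
      linarith
    have h5 : rho n - rho (n + 1) ≤ ell n := by
      rw [h3]; nlinarith
    exact pow_le_pow_left₀ h4 h5 2
  have h6 : 1 - Real.cos (th (n + 1) - th n) ≤ (3 / n) ^ 2 / 2 := by
    have h7 := Real.one_sub_sq_div_two_le_cos (x := th (n + 1) - th n)
    have h8 : (th (n + 1) - th n) ^ 2 ≤ (3 / n) ^ 2 := by
      rw [← sq_abs]
      exact pow_le_pow_left₀ (abs_nonneg _) (th_diff n (by omega)) 2
    linarith
  have h9 : rho n * rho (n + 1) ≤ 2 := by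
    have hs : ∀ m : ℕ, 1 ≤ m → rho m ^ 2 ≤ 2 := by
      intro m hm
      rw [rho_sq]
      have : 1 / Real.sqrt m ≤ 1 := by
        rw [div_le_one (Real.sqrt_pos.2 (by exact_mod_cast hm))]
        exact Real.one_le_sqrt.2 (by exact_mod_cast hm)
      linarith
    have e1 := hs n (by omega)
    have e2 := hs (n + 1) (by omega)
    nlinarith [sq_nonneg (rho n - rho (n + 1))]
  have h10 : 0 ≤ 1 - Real.cos (th (n + 1) - th n) := by
    have := Real.cos_le_one (th (n + 1) - th n); linarith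
  have h11 : 2 * (rho n * rho (n + 1)) * (1 - Real.cos (th (n + 1) - th n))
      ≤ 4 * ((3 / n) ^ 2 / 2) := by
    apply mul_le_mul (by linarith) h6 h10 (by norm_num)
  have h12 : 4 * ((3 / (n : ℝ)) ^ 2 / 2) = 18 / (n : ℝ) ^ 2 := by
    field_simp; ring
  rw [h12] at h11
  linarith

lemma ell_lower (n : ℕ) (hn : 2 ≤ n) :
    1 / (2 * (((n : ℝ) + 1) * Real.sqrt ((n : ℝ) + 1))) ≤ ell n := by
  have hn' : (0 : ℝ) < n := by exact_mod_cast (by omega : 0 < n)
  set a := Real.sqrt n with ha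
  set b := Real.sqrt ((n : ℝ) + 1) with hb
  have ha0 : 0 < a := Real.sqrt_pos.2 hn'
  have hb0 : 0 < b := Real.sqrt_pos.2 (by linarith)
  have ha2 : a ^ 2 = n := Real.sq_sqrt hn'.le
  have hb2 : b ^ 2 = (n : ℝ) + 1 := Real.sq_sqrt (by linarith)
  have hab : a ≤ b := Real.sqrt_le_sqrt (by linarith)
  have h1 : ell n = 1 / (a * b * (a + b)) := by
    rw [ell, ← ha, ← hb]
    have : (b - a) * (a + b) = 1 := by
      have : (b - a) * (a + b) = b ^ 2 - a ^ 2 := by ring
      rw [this, ha2, hb2]; ring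
    rw [div_sub_div _ _ ha0.ne' hb0.ne', div_eq_div_iff (by positivity) (by positivity)]
    calc (1 * b - a * 1) * (a * b * (a + b)) = ((b - a) * (a + b)) * (a * b) := by ring
      _ = 1 * (a * b) := by rw [this]
  rw [h1]
  apply one_div_le_one_div_of_le (by positivity)
  rw [← hb2]
  calc a * b * (a + b) ≤ b * b * (b + b) := by gcongr
    _ = 2 * (b ^ 2 * b) := by ring

lemma lam_le (n : ℕ) : lam n ≤ 100 / Real.sqrt ((n : ℝ) + 1) := by
  have hb0 : 0 < Real.sqrt ((n : ℝ) + 1) := Real.sqrt_pos.2 (by positivity)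
  by_cases hn : n < 2
  · have h1 : lam n ≤ 1 := by
      rw [lam, dd, dd, if_pos hn, if_pos hn]
      by_cases h : n = 1 <;> simp [h]
    have h2 : (1 : ℝ) ≤ 100 / Real.sqrt ((n : ℝ) + 1) := by
      rw [le_div_iff₀ hb0, one_mul]
      calc Real.sqrt ((n : ℝ) + 1) ≤ Real.sqrt (100 ^ 2) := by
            apply Real.sqrt_le_sqrt
            have : (n : ℝ) < 2 := by exact_mod_cast hn
            linarith
        _ = 100 := by rw [Real.sqrt_sq (by norm_num)]
    linarith
  · push Not at hn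
    have hn' : (0 : ℝ) < n := by exact_mod_cast (by omega : 0 < n)
    have hn2 : (2 : ℝ) ≤ n := by exact_mod_cast hn
    have hell := ell_pos n (by omega)
    rw [lam_eq n hn]
    set b := Real.sqrt ((n : ℝ) + 1) with hb
    have hb2 : b ^ 2 = (n : ℝ) + 1 := Real.sq_sqrt (by linarith)
    have h1 : ((X false n - X false (n + 1)) ^ 2 + (X true n - X true (n + 1)) ^ 2) / ell n
        ≤ (ell n ^ 2 + 18 / (n : ℝ) ^ 2) / ell n :=
      div_le_div_of_nonneg_right (dist_le n hn) hell.le
    have h2 : (ell n ^ 2 + 18 / (n : ℝ) ^ 2) / ell n = ell n + 18 / (n : ℝ) ^ 2 * (1 / ell n) := by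
      field_simp
    have h3 : 1 / ell n ≤ 2 * (((n : ℝ) + 1) * b) := by
      rw [div_le_iff₀ hell]
      have := ell_lower n hn
      rw [← hb, div_le_iff₀ (by positivity)] at this
      linarith
    have h4 : ell n ≤ 2 / b := by
      have h5 : ell n ≤ 1 / Real.sqrt n := by
        rw [ell]
        have : 0 ≤ 1 / Real.sqrt ((n : ℝ) + 1) := by positivity
        linarith
      have h6 : 1 / Real.sqrt n ≤ 2 / b := by
        have ha0 : 0 < Real.sqrt n := Real.sqrt_pos.2 hn'
        rw [div_le_div_iff₀ ha0 hb0, one_mul]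
        have : b ≤ Real.sqrt (4 * n) := by
          rw [hb]; apply Real.sqrt_le_sqrt; linarith
        rw [Real.sqrt_mul (by norm_num)] at this
        have h44 : Real.sqrt 4 = 2 := by
          rw [show (4 : ℝ) = 2 ^ 2 by norm_num, Real.sqrt_sq (by norm_num)]
        rw [h44] at this
        exact this
      linarith
    have h7 : 18 / (n : ℝ) ^ 2 * (1 / ell n) ≤ 18 / (n : ℝ) ^ 2 * (2 * (((n : ℝ) + 1) * b)) := by
      gcongr
    have h8 : 18 / (n : ℝ) ^ 2 * (2 * (((n : ℝ) + 1) * b)) ≤ 81 / b := by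
      rw [le_div_iff₀ hb0]
      have e1 : 18 / (n : ℝ) ^ 2 * (2 * (((n : ℝ) + 1) * b)) * b
          = 36 * (((n : ℝ) + 1) * b ^ 2) / (n : ℝ) ^ 2 := by ring
      rw [e1, hb2, div_le_iff₀ (by positivity)]
      nlinarith
    have h9 : (2 : ℝ) / b + 81 / b ≤ 100 / b := by
      rw [← add_div]
      gcongr
      norm_num
    linarith

end Pool.Agent.MPeb6598
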