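import Mathlib
import Pool.Agent.Lib.MP_eb6598_an.Neg
import Pool.Agent.Lib.MP_eb6598_an.Ops
import Pool.Agent.Lib.MP_eb6598_an.Path

set_option autoImplicit false
open scoped ENNReal NNReal Topology
open Filter ContinuousLinearMap

namespace Pool.Agent.MPeb6598

lemma lam_le_hundred (n : ℕ) : lam n ≤ 100 := by
  refine (lam_le n).trans ?_
  apply div_le_self (by norm_num)
  apply Real.one_le_sqrt.2
  have : (0 : ℝ) ≤ n := by positivity
  linarith

lemma dd_bound (n : ℕ) : (dd false n) ^ 2 + (dd true n) ^ 2 ≤ (10 : ℝ) ^ 2 := by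
  have h := lam_le_hundred n
  rw [lam] at h
  norm_num
  exact h

/-- the coupling -/
noncomputable def JJ : L2 ℕ →L[ℂ] L2 (Bool × ℕ) := jop dd 10 (by norm_num) dd_bound

/-- the unitary -/
noncomputable def UU : L2 (Bool × ℕ) →L[ℂ] L2 (Bool × ℕ) := permOp tau

lemma dinv_bound (n : ℕ) : ‖((1 / (1 + lam n) : ℝ) : ℂ)‖ ≤ 1 := by
  rw [Complex.norm_real, Real.norm_eq_abs, abs_of_nonneg (by have := lam_nonneg n; positivity)]
  rw [div_le_one (by have := lam_nonneg n; linarith)]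
  have := lam_nonneg n
  linarith

/-- the inverse of `1 + J*J` -/
noncomputable def DD : L2 ℕ →L[ℂ] L2 ℕ :=
  diagOp (fun n => ((1 / (1 + lam n) : ℝ) : ℂ)) 1 zero_le_one dinv_bound

lemma UU_norm (x : L2 (Bool × ℕ)) : ‖UU x‖ = ‖x‖ := permOp_norm _ _

lemma UU_adj (x : L2 (Bool × ℕ)) : UU (adjoint UU x) = x := permOp_adj _ _

lemma DD_spec (e : L2 ℕ) : DD e + adjoint JJ (JJ (DD e)) = e := by
  apply lp.ext
  funext n
  rw [lp.coeFn_add, Pi.add_apply, JJ, jop_adj_jop, DD, diagOp_apply]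
  have h := lam_nonneg n
  have h1 : (((dd false n) ^ 2 + (dd true n) ^ 2 : ℝ) : ℂ) = ((lam n : ℝ) : ℂ) := rfl
  rw [h1]
  have h2 : ((1 / (1 + lam n) : ℝ) : ℂ) * e n + ((lam n : ℝ) : ℂ) * (((1 / (1 + lam n) : ℝ) : ℂ) * e n)
      = (((1 + lam n) * (1 / (1 + lam n)) : ℝ) : ℂ) * e n := by
    push_cast; ring
  rw [h2, mul_one_div_cancel (by linarith)]
  simp

/-- the real part operator is diagonal -/
lemma AA_apply (x : L2 ℕ) (n : ℕ) : ((adjoint JJ ∘L JJ) x) n = ((lam n : ℝ) : ℂ) * x n := by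
  rw [ContinuousLinearMap.comp_apply, JJ, jop_adj_jop]; rfl

/-- finite rank truncations -/
noncomputable def FFpi (n : ℕ) : L2 ℕ →L[ℂ] (Fin n → ℂ) :=
  ContinuousLinearMap.pi (fun i => ((lam i : ℝ) : ℂ) • (lp.evalCLM ℂ (fun _ : ℕ => ℂ) 2 (i : ℕ)))

noncomputable def FFin (n : ℕ) : (Fin n → ℂ) →L[ℂ] L2 ℕ :=
  ∑ i : Fin n, (ContinuousLinearMap.proj (R := ℂ) (φ := fun _ : Fin n => ℂ) i).smulRight
    (lp.single 2 (i : ℕ) (1 : ℂ) : L2 ℕ)

noncomputable def FF (n : ℕ) : L2 ℕ →L[ℂ] L2 ℕ := FFin n ∘L FFpi n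

lemma FF_apply (n : ℕ) (x : L2 ℕ) (m : ℕ) :
    (FF n x) m = if m < n then ((lam m : ℝ) : ℂ) * x m else 0 := by
  classical
  have h1 : FF n x = ∑ i : Fin n, (((lam i : ℝ) : ℂ) * x (i : ℕ)) •
      (lp.single 2 (i : ℕ) (1 : ℂ) : L2 ℕ) := by
    rw [FF, ContinuousLinearMap.comp_apply, FFin, _root_.sum_apply]
    rfl
  rw [h1, lp.coeFn_sum, Finset.sum_apply]
  have h2 : ∀ i : Fin n, ((((lam i : ℝ) : ℂ) * x (i : ℕ)) •
      (lp.single 2 (i : ℕ) (1 : ℂ) : L2 ℕ) : L2 ℕ) m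
      = if (i : ℕ) = m then ((lam m : ℝ) : ℂ) * x m else 0 := by
    intro i
    rw [lp.coeFn_smul, Pi.smul_apply, lp.coeFn_single]
    by_cases h : (i : ℕ) = m
    · rw [if_pos h, h]; simp
    · rw [if_neg h, Pi.single_eq_of_ne (Ne.symm h)]; simp
  rw [Finset.sum_congr rfl (fun i _ => h2 i)]
  by_cases hm : m < n
  · rw [if_pos hm]
    rw [Finset.sum_eq_single (⟨m, hm⟩ : Fin n)]
    · simp
    · intro i _ hi
      rw [if_neg]
      intro h
      apply hi
      exact Fin.ext h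
    · intro h; exact absurd (Finset.mem_univ _) h
  · rw [if_neg hm]
    apply Finset.sum_eq_zero
    intro i _
    rw [if_neg]
    intro h
    have := i.2
    omega

lemma sqrt_anti (m n : ℕ) (h : n ≤ m) :
    100 / Real.sqrt ((m : ℝ) + 1) ≤ 100 / Real.sqrt ((n : ℝ) + 1) := by
  apply div_le_div_of_nonneg_left (by norm_num) (Real.sqrt_pos.2 (by positivity))
  apply Real.sqrt_le_sqrt
  have : (n : ℝ) ≤ m := by exact_mod_cast h
  linarith

lemma AF_norm (n : ℕ) : ‖(adjoint JJ ∘L JJ) - FF n‖ ≤ 100 / Real.sqrt ((n : ℝ) + 1) := by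
  have hc : ∀ m : ℕ, ‖(if m < n then 0 else ((lam m : ℝ) : ℂ))‖ ≤ 100 / Real.sqrt ((n : ℝ) + 1) := by
    intro m
    by_cases hm : m < n
    · rw [if_pos hm, norm_zero]; positivity
    · rw [if_neg hm, Complex.norm_real, Real.norm_eq_abs, abs_of_nonneg (lam_nonneg m)]
      exact (lam_le m).trans (sqrt_anti m n (by omega))
  have h : (adjoint JJ ∘L JJ) - FF n
      = diagOp (fun m => if m < n then 0 else ((lam m : ℝ) : ℂ)) (100 / Real.sqrt ((n : ℝ) + 1))
        (by positivity) hc := by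
    apply ContinuousLinearMap.ext
    intro x
    apply lp.ext
    funext m
    rw [_root_.sub_apply, lp.coeFn_sub, Pi.sub_apply, AA_apply, FF_apply, diagOp_apply]
    by_cases hm : m < n
    · rw [if_pos hm, if_pos hm]; ring
    · rw [if_neg hm, if_neg hm]; ring
  rw [h]
  exact diagOp_norm _ _ _ _

lemma FF_rank (n : ℕ) :
    Module.rank ℂ (LinearMap.range (FF n : L2 ℕ →ₗ[ℂ] L2 ℕ)) ≤ (n : Cardinal) := by
  have h1 : (FF n : L2 ℕ →ₗ[ℂ] L2 ℕ)
      = (FFin n : (Fin n → ℂ) →ₗ[ℂ] L2 ℕ) ∘ₗ (FFpi n : L2 ℕ →ₗ[ℂ] (Fin n → ℂ)) := rfl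
  have h2 : LinearMap.rank (FF n : L2 ℕ →ₗ[ℂ] L2 ℕ) ≤ (n : Cardinal) := by
    rw [h1]
    refine (LinearMap.rank_comp_le_left _ _).trans ?_
    refine (LinearMap.rank_le_domain _).trans ?_
    rw [rank_fun']
    simp
  exact h2

lemma sqrt_tendsto : Tendsto (fun n : ℕ => 100 / Real.sqrt ((n : ℝ) + 1)) atTop (𝓝 0) := by
  apply Tendsto.const_div_atTop
  apply Real.tendsto_sqrt_atTop.comp
  apply tendsto_atTop_add_const_right
  exact tendsto_natCast_atTop_atTop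

lemma FF_compact (n : ℕ) : IsCompactOperator (FF n) := by
  have h : IsCompactOperator (FFin n) := isCompactOperator_of_locallyCompactSpace_rng _
  exact h.comp_clm (FFpi n)

lemma AA_compact : IsCompactOperator ((adjoint JJ ∘L JJ : L2 ℕ →L[ℂ] L2 ℕ) : L2 ℕ → L2 ℕ) := by
  apply isCompactOperator_of_tendsto (l := atTop) (F := fun n : ℕ => FF n)
  · rw [tendsto_iff_norm_sub_tendsto_zero]
    refine squeeze_zero (fun n => norm_nonneg _) (fun n => ?_) sqrt_tendsto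
    rw [norm_sub_rev]
    exact AF_norm n
  · exact Filter.Eventually.of_forall FF_compact

lemma matsaev : ∑' n : ℕ, (⨅ (F : L2 ℕ →L[ℂ] L2 ℕ)
            (_ : Module.rank ℂ (LinearMap.range (F : L2 ℕ →ₗ[ℂ] L2 ℕ)) ≤ (n : Cardinal)),
            ENNReal.ofReal ‖(adjoint JJ ∘L JJ : L2 ℕ →L[ℂ] L2 ℕ) - F‖) / ((n : ℝ≥0∞) + 1) < ⊤ := by
  have hterm : ∀ n : ℕ, (⨅ (F : L2 ℕ →L[ℂ] L2 ℕ)
            (_ : Module.rank ℂ (LinearMap.range (F : L2 ℕ →ₗ[ℂ] L2 ℕ)) ≤ (n : Cardinal)),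
            ENNReal.ofReal ‖(adjoint JJ ∘L JJ : L2 ℕ →L[ℂ] L2 ℕ) - F‖) / ((n : ℝ≥0∞) + 1)
        ≤ ENNReal.ofReal (100 * (1 / ((n : ℝ) + 1) ^ (3 / 2 : ℝ))) := by
    intro n
    have h1 : (⨅ (F : L2 ℕ →L[ℂ] L2 ℕ)
            (_ : Module.rank ℂ (LinearMap.range (F : L2 ℕ →ₗ[ℂ] L2 ℕ)) ≤ (n : Cardinal)),
            ENNReal.ofReal ‖(adjoint JJ ∘L JJ : L2 ℕ →L[ℂ] L2 ℕ) - F‖)
        ≤ ENNReal.ofReal (100 / Real.sqrt ((n : ℝ) + 1)) :=
      (iInf₂_le (FF n) (FF_rank n)).trans (ENNReal.ofReal_le_ofReal (AF_norm n))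
    have h2 : ((n : ℝ≥0∞) + 1) = ENNReal.ofReal ((n : ℝ) + 1) := by
      rw [ENNReal.ofReal_add (by positivity) (by norm_num), ENNReal.ofReal_natCast,
        ENNReal.ofReal_one]
    rw [h2]
    refine (ENNReal.div_le_div_right h1 _).trans ?_
    rw [← ENNReal.ofReal_div_of_pos (by positivity)]
    apply ENNReal.ofReal_le_ofReal
    have h3 : ((n : ℝ) + 1) ^ (3 / 2 : ℝ) = Real.sqrt ((n : ℝ) + 1) * ((n : ℝ) + 1) := by
      rw [Real.sqrt_eq_rpow]
      have : (3 / 2 : ℝ) = 1 / 2 + 1 := by norm_num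
      rw [this, Real.rpow_add (by positivity), Real.rpow_one]
    rw [h3, div_div, mul_one_div]
  have hsum : Summable (fun n : ℕ => 100 * (1 / ((n : ℝ) + 1) ^ (3 / 2 : ℝ))) := by
    apply Summable.mul_left
    have h := (Real.summable_one_div_nat_rpow (p := 3 / 2)).2 (by norm_num)
    have h2 := (summable_nat_add_iff 1).2 h
    refine h2.congr (fun n => ?_)
    push_cast
    rfl
  refine lt_of_le_of_lt (ENNReal.tsum_le_tsum hterm) ?_
  rw [← ENNReal.ofReal_tsum_of_nonneg (fun n => by positivity) hsum]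
  exact ENNReal.ofReal_lt_top

/-- the travelling vector at site `m`. -/
noncomputable def vv (m : ℕ) : L2 (Bool × ℕ) :=
  ((X false m : ℝ) : ℂ) • (lp.single 2 (false, m) (1 : ℂ) : L2 (Bool × ℕ))
    + ((X true m : ℝ) : ℂ) • (lp.single 2 (true, m) (1 : ℂ) : L2 (Bool × ℕ))

lemma vv_apply (m : ℕ) (s : Bool) (k : ℕ) :
    (vv m) (s, k) = if k = m then ((X s m : ℝ) : ℂ) else 0 := by
  rw [vv, lp.coeFn_add, Pi.add_apply, lp.coeFn_smul, lp.coeFn_smul, Pi.smul_apply,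
    Pi.smul_apply, lp.coeFn_single, lp.coeFn_single]
  by_cases hm : k = m
  · subst hm
    cases s <;> simp
  · cases s <;> simp [hm]

lemma vv_norm (m : ℕ) : ‖vv m‖ ^ 2 = rho m ^ 2 := by
  rw [normsq_eq_tsum, tsum_eq_sum (s := {(false, m), (true, m)})]
  · rw [Finset.sum_pair (by simp), vv_apply, vv_apply]
    simp only [if_true, Complex.norm_real, Real.norm_eq_abs, sq_abs]
    rw [X_sq, rho_sq]
  · rintro ⟨s, k⟩ hk
    rw [vv_apply]
    have : k ≠ m := by
      intro h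
      apply hk
      subst h
      cases s <;> simp
    simp [this]

lemma adj_vv (m : ℕ) (hm : 2 ≤ m) : adjoint JJ (vv m)
    = ((Real.sqrt (ell m) * (1 + lam m) / 2 : ℝ) : ℂ) • (lp.single 2 m (1 : ℂ) : L2 ℕ) := by
  apply lp.ext
  funext k
  rw [JJ, jop_adj_apply, vv_apply, vv_apply, lp.coeFn_smul, Pi.smul_apply, lp.coeFn_single]
  by_cases hk : k = m
  · subst hk
    simp only [if_true, Pi.single_eq_same]
    rw [← dd_X k hm]
    push_cast
    simp
  · simp [hk]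

lemma DD_single (m : ℕ) (a : ℂ) : DD (a • (lp.single 2 m (1 : ℂ) : L2 ℕ))
    = (((1 / (1 + lam m) : ℝ) : ℂ) * a) • (lp.single 2 m (1 : ℂ) : L2 ℕ) := by
  apply lp.ext
  funext k
  rw [DD, diagOp_apply, lp.coeFn_smul, Pi.smul_apply, lp.coeFn_smul, Pi.smul_apply,
    lp.coeFn_single]
  by_cases hk : k = m
  · subst hk; simp
  · simp [hk]

lemma step_vv (m : ℕ) (hm : 2 ≤ m) :
    UU (vv m - (2 : ℂ) • JJ (DD (adjoint JJ (vv m)))) = vv (m + 1) := by
  have hl := lam_nonneg m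
  have hell := ell_pos m (by omega)
  have h1 : ∀ (s : Bool) (k : ℕ), (vv m - (2 : ℂ) • JJ (DD (adjoint JJ (vv m)))) (s, k)
      = if k = m then ((X s (m + 1) : ℝ) : ℂ) else 0 := by
    intro s k
    rw [adj_vv m hm, DD_single, map_smul, lp.coeFn_sub, Pi.sub_apply, vv_apply, lp.coeFn_smul,
      Pi.smul_apply, lp.coeFn_smul, Pi.smul_apply, JJ, jop_apply, lp.coeFn_single]
    by_cases hk : k = m
    · subst hk
      simp only [if_true, Pi.single_eq_same, smul_eq_mul, mul_one]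
      have e1 : (2 : ℂ) * (((1 / (1 + lam k) : ℝ) : ℂ)
          * ((Real.sqrt (ell k) * (1 + lam k) / 2 : ℝ) : ℂ) * ((dd s k : ℝ) : ℂ))
          = ((Real.sqrt (ell k) * dd s k * ((1 + lam k) * (1 / (1 + lam k))) : ℝ) : ℂ) := by
        push_cast; ring
      rw [e1, mul_one_div_cancel (by linarith), mul_one, dd_of_two_le s k hm,
        mul_div_cancel₀ _ (Real.sqrt_pos.2 hell).ne']
      push_cast; ring
    · simp [hk]
  apply lp.ext
  funext i
  obtain ⟨s, k⟩ := i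
  rw [UU, permOp_apply]
  have h2 : tau (s, k) = (s, bwd (cond s 2 1) k) := rfl
  rw [h2, h1, vv_apply]
  have ha : 0 < (cond s 2 1 : ℕ) := by cases s <;> simp
  by_cases hk : k = m + 1
  · subst hk
    rw [if_pos rfl]
    by_cases hb : bwd (cond s 2 1) (m + 1) = m
    · rw [if_pos hb]
    · rw [if_neg hb, X_cut s m (by omega) hb]; simp
  · rw [if_neg hk]
    by_cases hb : bwd (cond s 2 1) k = m
    · rw [if_pos hb]
      have hb2 : bwd (cond s 2 1) (m + 1) ≠ m := by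
        intro h
        apply hk
        exact bwd_inj _ ha (hb.trans h.symm)
      rw [X_cut s m (by omega) hb2]; simp
    · rw [if_neg hb]

/-- the test input -/
noncomputable def hin : lp (fun _ : ℕ => L2 ℕ) 2 := lp.single 2 0 (lp.single 2 1 (1 : ℂ) : L2 ℕ)

lemma hin_zero : hin 0 = (lp.single 2 1 (1 : ℂ) : L2 ℕ) := by
  rw [hin, lp.coeFn_single, Pi.single_eq_same]

lemma hin_succ (n : ℕ) : hin (n + 1) = 0 := by
  rw [hin, lp.coeFn_single, Pi.single_eq_of_ne (by omega)]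

lemma lam_one : lam 1 = 1 := by
  rw [lam, dd, dd]; simp

lemma rho_pos (n : ℕ) : 0 < rho n := lt_of_lt_of_le one_pos (one_le_rho n)

lemma st_one : st UU JJ DD 0 hin 1 = (-((1 / rho 2 : ℝ) : ℂ)) • vv 2 := by
  have h0 : st UU JJ DD 0 hin 1
      = UU (0 - (2 : ℂ) • JJ (DD (adjoint JJ 0 + hin 0))) := rfl
  rw [h0, map_zero, zero_add, hin_zero]
  have h1 : (lp.single 2 1 (1 : ℂ) : L2 ℕ) = (1 : ℂ) • (lp.single 2 1 (1 : ℂ) : L2 ℕ) := by
    rw [one_smul]
  rw [h1, DD_single, lam_one, map_smul]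
  apply lp.ext
  funext i
  obtain ⟨s, k⟩ := i
  rw [UU, permOp_apply]
  have h2 : tau (s, k) = (s, bwd (cond s 2 1) k) := rfl
  have hr := rho_pos 2
  rw [h2, lp.coeFn_smul, Pi.smul_apply, vv_apply, lp.coeFn_sub, Pi.sub_apply, lp.coeFn_smul,
    Pi.smul_apply, lp.coeFn_smul, Pi.smul_apply, JJ, jop_apply, lp.coeFn_single]
  cases s with
  | false =>
    have hb1 : bwd 1 2 = 1 := by
      have := log_block 1 one_pos 2 0 (by norm_num) (by norm_num)
      rw [bwd, if_neg (by norm_num), this]; norm_num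
    have hX : X false 2 = rho 2 := by
      simp [X, th_two]
    have hd1 : dd false 1 = 1 := by simp [dd]
    simp only [cond_false]
    by_cases hk : k = 2
    · subst hk
      rw [hb1, Pi.single_eq_same, hd1, hX, if_pos rfl]
      have : ((rho 2 : ℝ) : ℂ) ≠ 0 := by exact_mod_cast hr.ne'
      simp only [smul_eq_mul]
      change (0 : ℂ) - _ = _
      push_cast
      field_simp
      norm_num
    · have hb2 : bwd 1 k ≠ 1 := by
        intro h
        apply hk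
        exact bwd_inj 1 one_pos (h.trans hb1.symm)
      rw [Pi.single_eq_of_ne hb2, if_neg hk]
      simp only [smul_eq_mul, mul_zero]
      change (0 : ℂ) - _ = _
      ring
  | true =>
    have hX : X true 2 = 0 := by
      simp [X, th_two]
    rw [hX]
    simp only [cond_true]
    have hd1 : ∀ m, (dd true m : ℂ) * (Pi.single 1 (1 : ℂ) : ℕ → ℂ) m = 0 := by
      intro m
      by_cases hm : m = 1
      · subst hm
        have : dd true 1 = 0 := by simp [dd]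
        rw [this]; simp
      · rw [Pi.single_eq_of_ne hm]; simp
    rw [hd1]
    simp only [smul_eq_mul, mul_zero, Complex.ofReal_zero, ite_self]
    change (0 : ℂ) - 0 = 0
    ring

lemma st_succ (n : ℕ) : st UU JJ DD 0 hin (n + 1) = (-((1 / rho 2 : ℝ) : ℂ)) • vv (n + 2) := by
  induction n with
  | zero => exact st_one
  | succ n ih =>
    have h0 : st UU JJ DD 0 hin (n + 1 + 1)
      = UU (st UU JJ DD 0 hin (n + 1) - (2 : ℂ) • JJ (DD (adjoint JJ (st UU JJ DD 0 hin (n + 1))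
        + hin (n + 1)))) := rfl
    rw [h0, ih, hin_succ, add_zero, map_smul, map_smul, map_smul, smul_comm (2 : ℂ), ← smul_sub,
      map_smul, step_vv (n + 2) (by omega)]

lemma io_lt : ‖io UU JJ DD UU_norm DD_spec hin‖ < ‖hin‖ := by
  have hnorm : ‖hin‖ = 1 := by
    rw [hin, lp.norm_single (by norm_num), lp.norm_single (by norm_num)]; simp
  have hr := rho_pos 2
  have h1 : ‖io UU JJ DD UU_norm DD_spec hin‖ ^ 2 ≤ 1 - (1 / rho 2) ^ 2 := by
    apply normsq_le_of_sum_le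
    apply sum_le_of_range
    intro N
    have h2 : ∑ i ∈ Finset.range N, ‖(io UU JJ DD UU_norm DD_spec hin) i‖ ^ 2
        ≤ ∑ i ∈ Finset.range (N + 1), ‖(io UU JJ DD UU_norm DD_spec hin) i‖ ^ 2 := by
      apply Finset.sum_le_sum_of_subset_of_nonneg
      · intro i hi
        simp only [Finset.mem_range] at hi ⊢
        omega
      · intro i _ _; positivity
    refine h2.trans ?_
    have h3 := energy_sum UU JJ DD UU_norm DD_spec 0 hin (N + 1)
    have h4 : ∑ n ∈ Finset.range (N + 1), ‖hin n‖ ^ 2 ≤ 1 := by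
      have := sum_normsq_le hin (Finset.range (N + 1))
      rw [hnorm] at this
      simpa using this
    rw [st_succ, norm_smul, mul_pow, vv_norm, norm_zero] at h3
    have h5 : ‖(-((1 / rho 2 : ℝ) : ℂ))‖ ^ 2 = (1 / rho 2) ^ 2 := by
      rw [norm_neg, Complex.norm_real, Real.norm_eq_abs, sq_abs]
    rw [h5] at h3
    have h6 : (1 / rho 2) ^ 2 ≤ (1 / rho 2) ^ 2 * rho (N + 2) ^ 2 := by
      have h7 : (1 : ℝ) ≤ rho (N + 2) ^ 2 := one_le_pow₀ (one_le_rho _)
      have h8 : 0 ≤ (1 / rho 2) ^ 2 := by positivity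
      nlinarith
    have h9 : ∑ i ∈ Finset.range (N + 1), ‖(io UU JJ DD UU_norm DD_spec hin) i‖ ^ 2
        = ∑ n ∈ Finset.range (N + 1), ‖outp UU JJ DD 0 hin n‖ ^ 2 := rfl
    rw [h9]
    linarith
  have h2 : ‖io UU JJ DD UU_norm DD_spec hin‖ ^ 2 < 1 ^ 2 := by
    have : 0 < (1 / rho 2) ^ 2 := by positivity
    linarith
  rw [hnorm]
  exact lt_of_pow_lt_pow_left₀ 2 zero_le_one h2

theorem not_stmt : ¬ Stmt :=
  abstract_neg UU JJ DD UU_norm UU_adj DD_spec AA_compact matsaev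
    (fun F => permOp_recurrent tau tau_periodic F) hin io_lt

end Pool.Agent.MPeb6598
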